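import Mathlib
import Pool.Agent.Lib.MP_fbb83b_lc.Basic

set_option autoImplicit false

namespace Pool.Agent.Lib.MP_fbb83b_lc

theorem exists_wo (α : Type*) : ∃ (_ : LinearOrder α), WellFoundedLT α := exists_wellFoundedLT α

/-- A set without infinite antichain is a finite union of down-directed pieces. -/
theorem directed_split {α : Type*} {r : α → α → Prop} (hrefl : ∀ x, r x x)
    (hr : ∀ x y z, r x y → r y z → r x z) {c : Set α} (hc : FAC r c) :
    ∃ d : α → ℕ, (∃ N, ∀ x ∈ c, d x < N) ∧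
      ∀ x ∈ c, ∀ y ∈ c, d x = d y → ∃ w ∈ c, d w = d x ∧ r w x ∧ r w y := by
  classical
  obtain ⟨_, _⟩ := exists_wo α
  set A0 : Set α := {x | x ∈ c ∧ ∀ y ∈ c, y < x → ¬ r y x} with hA0
  have hA0c : A0 ⊆ c := fun x hx => hx.1
  have coinit : ∀ p ∈ c, ∃ x ∈ A0, r x p := by
    intro p hp
    have hne : {x | x ∈ c ∧ r x p}.Nonempty := ⟨p, hp, hrefl p⟩
    have hwf : WellFounded ((· < ·) : α → α → Prop) := wellFounded_lt
    refine ⟨hwf.min _ hne, ⟨(hwf.min_mem _ hne).1, fun y hy hlt hyr => ?_⟩,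
      (hwf.min_mem _ hne).2⟩
    have hyS : y ∈ {x | x ∈ c ∧ r x p} := ⟨hy, hr _ _ _ hyr (hwf.min_mem _ hne).2⟩
    exact hwf.not_lt_min _ hyS hlt
  let DD : Set α → Prop := fun F => ∀ x ∈ F, ∀ y ∈ F, ∃ w ∈ F, r w x ∧ r w y
  let FU : Set α → Prop := fun B => ∃ (N : ℕ) (F : ℕ → Set α),
    (∀ k < N, F k ⊆ A0 ∧ DD (F k)) ∧ ∀ x ∈ B, ∃ k < N, x ∈ F k
  have FUunion : ∀ B C D : Set α, FU B → FU C → D ⊆ B ∪ C → FU D := by
    rintro B C D ⟨N, F, hF1, hF2⟩ ⟨M, G, hG1, hG2⟩ hD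
    refine ⟨N + M, fun k => if k < N then F k else G (k - N), fun k hk => ?_, fun x hx => ?_⟩
    · by_cases hkN : k < N
      · simp only [hkN, if_true]
        exact hF1 k hkN
      · simp only [hkN, if_false]
        exact hG1 _ (by omega)
    · rcases hD hx with hx | hx
      · obtain ⟨k, hk, hxk⟩ := hF2 x hx
        refine ⟨k, by omega, ?_⟩
        simp only [hk, if_true]
        exact hxk
      · obtain ⟨k, hk, hxk⟩ := hG2 x hx
        refine ⟨N + k, by omega, ?_⟩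
        have h1 : ¬ (N + k < N) := by omega
        have h2 : N + k - N = k := by omega
        simp only [h1, if_false, h2]
        exact hxk
  have step : ∀ B : Set α, B ⊆ A0 → ¬ FU B → ∃ x ∈ B, ¬ FU {w | w ∈ B ∧ ¬ r w x} := by
    intro B hB hFU
    by_contra hcon
    push Not at hcon
    apply hFU
    by_cases hDD : DD B
    · exact ⟨1, fun _ => B, fun _ _ => ⟨hB, hDD⟩, fun x hx => ⟨0, Nat.zero_lt_one, hx⟩⟩
    · simp only [DD] at hDD
      push Not at hDD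
      obtain ⟨x, hx, y, hy, hxy⟩ := hDD
      refine FUunion _ _ B (hcon x hx) (hcon y hy) fun w hw => ?_
      by_cases h : r w x
      · exact Or.inr ⟨hw, hxy w hw h⟩
      · exact Or.inl ⟨hw, h⟩
  have hA0FU : FU A0 := by
    by_contra hA0FU
    have step' : ∀ B : {B : Set α // B ⊆ A0 ∧ ¬ FU B}, ∃ x ∈ B.1,
        ¬ FU {w | w ∈ B.1 ∧ ¬ r w x} := fun B => step B.1 B.2.1 B.2.2
    choose X hX1 hX2 using step'
    let s : ℕ → {B : Set α // B ⊆ A0 ∧ ¬ FU B} := fun n =>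
      Nat.rec ⟨A0, Set.Subset.refl _, hA0FU⟩
        (fun _ B => ⟨{w | w ∈ B.1 ∧ ¬ r w (X B)}, fun w hw => B.2.1 hw.1, hX2 B⟩) n
    have hs : ∀ n, (s (n + 1)).1 = {w | w ∈ (s n).1 ∧ ¬ r w (X (s n))} := fun n => rfl
    have hanti : ∀ m n, m ≤ n → (s n).1 ⊆ (s m).1 := by
      intro m n hmn
      induction n, hmn using Nat.le_induction with
      | base => exact Set.Subset.refl _
      | succ n _ ih =>
        intro w hw
        rw [hs] at hw
        exact ih hw.1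
    let x : ℕ → α := fun n => X (s n)
    have hx : ∀ n, x n ∈ (s n).1 := fun n => hX1 _
    have hxA : ∀ n, x n ∈ A0 := fun n => (s n).2.1 (hx n)
    have hxx : ∀ m n, m < n → ¬ r (x n) (x m) := by
      intro m n hmn
      have h1 := hanti (m + 1) n hmn (hx n)
      rw [hs] at h1
      exact h1.2
    obtain ⟨g, hg, h1 | h1⟩ := hc.subseq hr (f := x) fun n => hA0c (hxA n)
    · apply not_strictAnti_of_wellFoundedLT (fun n => x (g n))
      intro m n hmn
      have h2 := h1 m n hmn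
      have h3 : ¬ x (g m) < x (g n) := fun h => (hxA (g n)).2 _ (hA0c (hxA (g m))) h h2
      have h4 : x (g m) ≠ x (g n) := by
        intro h
        apply hxx _ _ (hg hmn)
        rw [h]
        exact hrefl _
      exact lt_of_le_of_ne (not_lt.mp h3) h4.symm
    · exact hxx _ _ (hg Nat.zero_lt_one) (h1 0 1 Nat.zero_lt_one)
  obtain ⟨N, F, hF1, hF2⟩ := hA0FU
  have hex : ∀ x ∈ c, ∃ k, k < N ∧ ∃ w ∈ F k, r w x := by
    intro x hx
    obtain ⟨w, hw, hwx⟩ := coinit x hx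
    obtain ⟨k, hk, hwk⟩ := hF2 w hw
    exact ⟨k, hk, w, hwk, hwx⟩
  let d : α → ℕ := fun x => if h : ∃ k, k < N ∧ ∃ w ∈ F k, r w x then Nat.find h else 0
  have hd : ∀ x (h : ∃ k, k < N ∧ ∃ w ∈ F k, r w x), d x = Nat.find h := by
    intro x h
    simp only [d, h, dif_pos]
  refine ⟨d, ⟨N, fun x hx => ?_⟩, fun x hx y hy hxy => ?_⟩
  · rw [hd x (hex x hx)]
    exact (Nat.find_spec (hex x hx)).1
  · have hx1 := Nat.find_spec (hex x hx)
    have hy1 := Nat.find_spec (hex y hy)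
    rw [← hd x (hex x hx)] at hx1
    rw [← hd y (hex y hy), ← hxy] at hy1
    obtain ⟨hk, w1, hw1, hw1x⟩ := hx1
    obtain ⟨_, w2, hw2, hw2y⟩ := hy1
    obtain ⟨w, hw, hww1, hww2⟩ := (hF1 _ hk).2 w1 hw1 w2 hw2
    have hwc : w ∈ c := hA0c ((hF1 _ hk).1 hw)
    have hwx : r w x := hr _ _ _ hww1 hw1x
    refine ⟨w, hwc, ?_, hwx, hr _ _ _ hww2 hw2y⟩
    have h3 : ∃ k, k < N ∧ ∃ v ∈ F k, r v w := ⟨d x, hk, w, hw, hrefl w⟩
    rw [hd w h3]
    apply le_antisymm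
    · exact Nat.find_min' h3 ⟨hk, w, hw, hrefl w⟩
    · rw [hd x (hex x hx)]
      obtain ⟨h4, v, hv, hvw⟩ := Nat.find_spec h3
      exact Nat.find_min' (hex x hx) ⟨h4, v, hv, hr _ _ _ hvw hwx⟩

end Pool.Agent.Lib.MP_fbb83b_lc
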