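import Mathlib
import Pool.Agent.Lib.MP_fbb83b_lc.Directed

set_option autoImplicit false

namespace Pool.Agent.Lib.MP_fbb83b_lc

/-- An increasing sequence through infinite subsets of a well-order. -/
theorem inc_seq {θ : Type*} [LinearOrder θ] [WellFoundedLT θ] (S : ℕ → Set θ)
    (hS : ∀ k, (S k).Infinite) :
    ∃ (g : ℕ → ℕ) (j : ℕ → θ), StrictMono g ∧ StrictMono j ∧ ∀ a, j a ∈ S (g a) := by
  have hwf : WellFounded ((· < ·) : θ → θ → Prop) := wellFounded_lt
  let L : ℕ → Set θ := fun k => {j | (S k ∩ Set.Iic j).Finite}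
  have hL0 : ∀ k, ∃ j, j ∈ S k ∧ j ∈ L k := by
    intro k
    refine ⟨hwf.min _ (hS k).nonempty, hwf.min_mem _ _, ?_⟩
    refine (Set.finite_singleton (hwf.min _ (hS k).nonempty)).subset ?_
    rintro j ⟨hj1, hj2⟩
    have h1 : ¬ j < hwf.min _ (hS k).nonempty := hwf.not_lt_min _ hj1
    exact le_antisymm hj2 (not_lt.mp h1)
  have hL1 : ∀ k, ∀ j ∈ L k, ∃ j', (j' ∈ S k ∧ j' ∈ L k) ∧ j < j' := by
    intro k j hj
    have hinf : (S k \ Set.Iic j).Infinite := by
      intro hfin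
      apply hS k
      refine (Set.Finite.union hfin hj).subset fun x hx => ?_
      by_cases h : x ∈ Set.Iic j
      · exact Or.inr ⟨hx, h⟩
      · exact Or.inl ⟨hx, h⟩
    have h1 := hwf.min_mem _ hinf.nonempty
    refine ⟨hwf.min _ hinf.nonempty, ⟨h1.1, ?_⟩, ?_⟩
    · refine (Set.Finite.union hj (Set.finite_singleton (hwf.min _ hinf.nonempty))).subset ?_
      rintro x ⟨hx1, hx2⟩
      by_cases h : x ∈ Set.Iic j
      · exact Or.inl ⟨hx1, h⟩
      · right
        have hxS : x ∈ S k \ Set.Iic j := ⟨hx1, h⟩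
        have h2 : ¬ x < hwf.min _ hinf.nonempty := hwf.not_lt_min _ hxS
        exact le_antisymm hx2 (not_lt.mp h2)
    · have h3 := h1.2
      simp only [Set.mem_Iic, not_le] at h3
      exact h3
  obtain ⟨g, hg, h1 | h1⟩ := ramsey (fun a b => L a ⊆ L b) (fun a b c => Set.Subset.trans)
  · have h2 : ∀ a, ∀ j, j ∈ L (g a) →
        ∃ j', (j' ∈ S (g (a + 1)) ∧ j' ∈ L (g (a + 1))) ∧ j < j' := fun a j hj =>
      hL1 _ _ (h1 a (a + 1) (Nat.lt_succ_self a) hj)
    let s : (a : ℕ) → {j // j ∈ S (g a) ∧ j ∈ L (g a)} := fun a =>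
      Nat.rec ⟨(hL0 (g 0)).choose, (hL0 (g 0)).choose_spec⟩
        (fun a j => ⟨(h2 a j.1 j.2.2).choose, (h2 a j.1 j.2.2).choose_spec.1⟩) a
    have hs : ∀ a, (s a).1 < (s (a + 1)).1 := fun a =>
      (h2 a (s a).1 (s a).2.2).choose_spec.2
    exact ⟨g, fun a => (s a).1, hg, strictMono_nat_of_lt_succ hs, fun a => (s a).2.1⟩
  · exfalso
    have h2 : ∀ m, ∃ j, j ∈ L (g m) ∧ j ∉ L (g (m + 1)) := fun m =>
      Set.not_subset.mp (h1 m (m + 1) (Nat.lt_succ_self m))
    choose j hj1 hj2 using h2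
    apply not_strictAnti_of_wellFoundedLT j
    apply strictAnti_nat_of_succ_lt
    intro m
    by_contra h
    apply hj2 m
    have h3 : (S (g (m + 1)) ∩ Set.Iic (j (m + 1))).Finite := hj1 (m + 1)
    exact h3.subset (Set.inter_subset_inter_right _ (Set.Iic_subset_Iic.mpr (not_lt.mp h)))

/-- The levels at which `x` and `y` are separated (above `y`, not above `x`). -/
def DS {α θ : Type*} (r : α → α → Prop) (A : Set α) (τ : α → θ) (x y : α) : Set θ :=
  {j | ∃ z ∈ A, τ z = j ∧ r y z ∧ ¬ r x z}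

section DS

variable {α θ : Type*} {r : α → α → Prop} {A : Set α} {τ : α → θ}

theorem DS_triangle (x y w : α) : DS r A τ x w ⊆ DS r A τ x y ∪ DS r A τ y w := by
  rintro j ⟨z, hz, hj, h1, h2⟩
  by_cases h : r y z
  · exact Or.inl ⟨z, hz, hj, h, h2⟩
  · exact Or.inr ⟨z, hz, hj, h1, h⟩

theorem DS_of_le (hr : ∀ x y z, r x y → r y z → r x z) {x y : α} (h : r x y) :
    DS r A τ x y = ∅ := by
  ext j
  simp only [Set.mem_empty_iff_false, iff_false]
  rintro ⟨z, hz, hj, h1, h2⟩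
  exact h2 (hr _ _ _ h h1)

theorem DS_mono_right (hr : ∀ x y z, r x y → r y z → r x z) {x y y' : α} (h : r y y') :
    DS r A τ x y' ⊆ DS r A τ x y := by
  rintro j ⟨z, hz, hj, h1, h2⟩
  exact ⟨z, hz, hj, hr _ _ _ h h1, h2⟩

theorem DS_mono_left (hr : ∀ x y z, r x y → r y z → r x z) {x x' y : α} (h : r x' x) :
    DS r A τ x' y ⊆ DS r A τ x y := by
  rintro j ⟨z, hz, hj, h1, h2⟩
  exact ⟨z, hz, hj, h1, fun h3 => h2 (hr _ _ _ h h3)⟩

variable [LinearOrder θ]

theorem no_inc (hr : ∀ x y z, r x y → r y z → r x z) (hA : FAC r A)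
    (hτ : ∀ x ∈ A, ∀ y ∈ A, r x y → τ x ≤ τ y) {x : ℕ → α} (hx : ∀ m n, m < n → r (x n) (x m))
    {j : ℕ → θ} (hj : StrictMono j) (hjx : ∀ a, j a ∈ DS r A τ (x a) (x (a + 1))) : False := by
  choose z hzA hzτ hz1 hz2 using hjx
  obtain ⟨m, n, hmn, h | h⟩ := hA z hzA
  · apply hz2 n
    refine hr _ _ _ ?_ h
    rcases Nat.lt_or_ge (m + 1) n with h1 | h1
    · exact hr _ _ _ (hx _ _ h1) (hz1 m)
    · have h2 : n = m + 1 := by omega
      rw [h2]
      exact hz1 m
  · have h1 := hτ _ (hzA n) _ (hzA m) h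
    rw [hzτ, hzτ] at h1
    exact absurd (hj hmn) (not_lt.mpr h1)

theorem WQ_DS [WellFoundedLT θ] (hr : ∀ x y z, r x y → r y z → r x z)
    (hA : FAC r A) (hτ : ∀ x ∈ A, ∀ y ∈ A, r x y → τ x ≤ τ y) :
    WQ (fun x y => (DS r A τ x y).Finite) A := by
  intro f hf
  by_contra hcon
  push Not at hcon
  obtain ⟨g, hg, h1⟩ := hA.desc hr hf (fun m n hmn h => by
    apply hcon m n hmn
    rw [DS_of_le hr h]
    exact Set.finite_empty)
  obtain ⟨h, j, hh, hj, hjS⟩ := inc_seq (fun k => DS r A τ (f (g k)) (f (g (k + 1))))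
    (fun k => hcon _ _ (hg (Nat.lt_succ_self k)))
  refine no_inc hr hA hτ (x := fun a => f (g (h a))) (fun m n hmn => h1 _ _ (hh hmn)) hj
    fun a => ?_
  have h2 : h a + 1 ≤ h (a + 1) := hh (Nat.lt_succ_self a)
  rcases Nat.lt_or_ge (h a + 1) (h (a + 1)) with h3 | h3
  · exact DS_mono_right hr (h1 _ _ h3) (hjS a)
  · have h4 : h (a + 1) = h a + 1 := by omega
    simp only [h4]
    exact hjS a

/-- Separations of `y` from the elements of its class below it. -/
def Sd (r : α → α → Prop) (A : Set α) (τ : α → θ) (B : Set α) (y : α) : Set θ :=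
  {j | ∃ w ∈ B, r w y ∧ (DS r A τ y w).Finite ∧ j ∈ DS r A τ y w}

theorem Sd_finite [WellFoundedLT θ] (hr : ∀ x y z, r x y → r y z → r x z)
    (hA : FAC r A) (hτ : ∀ x ∈ A, ∀ y ∈ A, r x y → τ x ≤ τ y) {B : Set α} (hB : B ⊆ A) (y : α) :
    (Sd r A τ B y).Finite := by
  by_contra hinf
  have hinf : (Sd r A τ B y).Infinite := hinf
  obtain ⟨_, j, _, hj, hjS⟩ := inc_seq (fun _ => Sd r A τ B y) fun _ => hinf
  choose w hwB hwy hwf hwj using hjS
  obtain ⟨g, hg, h1 | h1⟩ := hA.subseq hr (f := w) fun n => hB (hwB n)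
  · have h2 : ∀ n, 0 < n → j (g n) ∈ DS r A τ y (w (g 0)) := fun n hn =>
      DS_mono_right hr (h1 0 n hn) (hwj (g n))
    have h3 : (Set.range fun n : ℕ => j (g (n + 1))) ⊆ DS r A τ y (w (g 0)) := by
      rintro _ ⟨n, rfl⟩
      exact h2 _ (Nat.succ_pos n)
    have h4 : Function.Injective fun n : ℕ => j (g (n + 1)) :=
      (hj.comp (hg.comp (strictMono_nat_of_lt_succ fun n => Nat.lt_succ_self _))).injective
    exact Set.infinite_range_of_injective h4 ((hwf (g 0)).subset h3)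
  · -- choose a subsequence
    have h2 : ∃ h : ℕ → ℕ, (∀ _n : ℕ, True) ∧ ∀ m n, m < n →
        (h m < h n ∧ j (g (h n)) ∉ DS r A τ y (w (g (h m)))) := by
      apply exists_seq_of_forall_finset_exists (fun _ : ℕ => True)
        (fun a b => a < b ∧ j (g b) ∉ DS r A τ y (w (g a)))
      intro s _
      have hfin : (⋃ a ∈ s, DS r A τ y (w (g a))).Finite :=
        Set.Finite.biUnion s.finite_toSet fun a _ => hwf (g a)
      have hinj : Function.Injective fun n : ℕ => j (g n) := (hj.comp hg).injective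
      have hfin2 : ((fun n : ℕ => j (g n)) ⁻¹' (⋃ a ∈ s, DS r A τ y (w (g a)))).Finite :=
        hfin.preimage hinj.injOn
      obtain ⟨b, hb⟩ := (hfin2.union (Set.finite_Iic (s.sup id))).infinite_compl.nonempty
      simp only [Set.mem_compl_iff, Set.mem_union, Set.mem_preimage, Set.mem_iUnion,
        Set.mem_Iic, not_or, not_exists, not_le] at hb
      refine ⟨b, trivial, fun a ha => ⟨?_, hb.1 a ha⟩⟩
      have h5 : id a ≤ s.sup id := Finset.le_sup ha
      exact lt_of_le_of_lt h5 hb.2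
    obtain ⟨h, _, hh⟩ := h2
    have hhm : StrictMono h := fun m n hmn => (hh m n hmn).1
    refine no_inc hr hA hτ (x := fun a => w (g (h a))) (fun m n hmn => h1 _ _ (hhm hmn))
      (j := fun a => j (g (h (a + 1)))) (fun m n hmn => hj (hg (hhm (by omega)))) fun a => ?_
    have h3 := DS_triangle (r := r) (A := A) (τ := τ) y (w (g (h a))) (w (g (h (a + 1))))
      (hwj (g (h (a + 1))))
    rcases h3 with h3 | h3
    · exact absurd h3 (hh a (a + 1) (Nat.lt_succ_self a)).2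
    · exact h3

end DS

/-- Good partitions adapted to every monotone well-quasi-ordered label. -/
def GP {α : Type*} (r : α → α → Prop) (A : Set α) : Prop :=
  ∀ s : α → α → Prop, (∀ x ∈ A, ∀ y ∈ A, ∀ z ∈ A, s x y → s y z → s x z) →
    (∀ x ∈ A, ∀ y ∈ A, r x y → s x y) → WQ s A →
    ∃ π : α → Set α, Good r A π ∧ ∀ x ∈ A, ∀ y ∈ A, π x = π y → s x y

end Pool.Agent.Lib.MP_fbb83b_lc
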