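import Mathlib
import Pool.Agent.Lib.MP_fbb83b_lc.ThmG

set_option autoImplicit false

namespace Pool.Agent.Lib.MP_fbb83b_lc

theorem good_of_bounded {α : Type*} {r : α → α → Prop} {c : Set α} {ρ : α → ℕ}
    (h : ∃ N, ∀ x ∈ c, ρ x < N) : Good r c ρ := by
  obtain ⟨N, hN⟩ := h
  intro f hf
  let F : ℕ → Fin N := fun n => ⟨ρ (f n), hN _ (hf n)⟩
  obtain ⟨m, n, hmn, h1⟩ := Finite.exists_ne_map_eq_of_infinite F
  have h2 : ρ (f m) = ρ (f n) := congrArg Fin.val h1
  rcases lt_or_gt_of_ne hmn with h3 | h3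
  · exact ⟨m, n, h3, Or.inl h2⟩
  · exact ⟨n, m, h3, Or.inl h2.symm⟩

variable {α θ : Type*} {r : α → α → Prop} {A : Set α} {τ : α → θ}

theorem DS_label_trans [LinearOrder θ] {B : Set α} {x y z : α}
    (h1 : (DS r A τ x y).Finite ∧
      ((DS r A τ y x).Finite → (Sd r A τ B x).encard ≤ (Sd r A τ B y).encard))
    (h2 : (DS r A τ y z).Finite ∧
      ((DS r A τ z y).Finite → (Sd r A τ B y).encard ≤ (Sd r A τ B z).encard)) :
    (DS r A τ x z).Finite ∧
      ((DS r A τ z x).Finite → (Sd r A τ B x).encard ≤ (Sd r A τ B z).encard) := by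
  refine ⟨(h1.1.union h2.1).subset (DS_triangle x y z), fun h3 => ?_⟩
  have h4 : (DS r A τ y x).Finite := (h2.1.union h3).subset (DS_triangle y z x)
  have h5 : (DS r A τ z y).Finite := (h3.union h1.1).subset (DS_triangle z x y)
  exact (h1.2 h4).trans (h2.2 h5)

theorem Sd_mono [LinearOrder θ] (hr : ∀ x y z, r x y → r y z → r x z) {B : Set α} {x y : α}
    (h : r x y) (hfin : (DS r A τ y x).Finite) : Sd r A τ B x ⊆ Sd r A τ B y := by
  rintro j ⟨w, hw, hwx, hwf, z, hz, hj, h1, h2⟩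
  exact ⟨w, hw, hr _ _ _ hwx h, (hfin.union hwf).subset (DS_triangle y x w), z, hz, hj, h1,
    fun h3 => h2 (hr _ _ _ h h3)⟩

/-- The main theorem on good partitions. -/
theorem thmG [LinearOrder θ] [WellFoundedLT θ] (hrefl : ∀ x, r x x)
    (hr : ∀ x y z, r x y → r y z → r x z) (hA : FAC r A)
    (hτ : ∀ x ∈ A, ∀ y ∈ A, r x y → τ x ≤ τ y)
    (hGP : ∀ i, GP r {x | x ∈ A ∧ τ x = i}) :
    ∃ π : α → Set α, Good r A π ∧ ∀ x ∈ A, ∀ y ∈ A, π x = π y → τ x = τ y := by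
  classical
  let Ai : θ → Set α := fun i => {x | x ∈ A ∧ τ x = i}
  have hAi : ∀ i, Ai i ⊆ A := fun i x hx => hx.1
  have h0 : ∀ i, ∃ π : α → Set α, Good r (Ai i) π ∧ ∀ x ∈ Ai i, ∀ y ∈ Ai i, π x = π y →
      ((DS r A τ x y).Finite ∧
      ((DS r A τ y x).Finite → (Sd r A τ (Ai i) x).encard ≤ (Sd r A τ (Ai i) y).encard)) := by
    intro i
    refine hGP i (fun x y => (DS r A τ x y).Finite ∧ ((DS r A τ y x).Finite →
      (Sd r A τ (Ai i) x).encard ≤ (Sd r A τ (Ai i) y).encard))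
      (fun x _ y _ z _ h1 h2 => DS_label_trans h1 h2) (fun x _ y _ hxy => ?_) ?_
    · refine ⟨?_, fun h => Set.encard_le_encard (Sd_mono hr hxy h)⟩
      rw [DS_of_le hr hxy]
      exact Set.finite_empty
    · intro f hf
      obtain ⟨g, hg, h1⟩ := (WQ_DS (r := r) (A := A) (τ := τ) hr hA hτ).subseq
        (fun x _ y _ z _ h1 h2 => (h1.union h2).subset (DS_triangle x y z))
        (f := f) (fun n => (hf n).1)
      obtain ⟨m, n, hmn, h2⟩ : ∃ m n, m < n ∧ (Sd r A τ (Ai i) (f (g m))).encard ≤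
          (Sd r A τ (Ai i) (f (g n))).encard := by
        by_contra hcon
        push Not at hcon
        exact not_strictAnti_of_wellFoundedLT (fun n => (Sd r A τ (Ai i) (f (g n))).encard)
          fun m n hmn => hcon m n hmn
      exact ⟨g m, g n, hg hmn, h1 _ _ hmn, fun _ => h2⟩
  choose πi hπg hπs using h0
  let c : θ → α → Set α := fun i x => {y | y ∈ Ai i ∧ πi i y = πi i x}
  have hc : ∀ i x, FAC r (c i x) := fun i x => hA.mono fun y hy => hAi i hy.1
  have hd : ∀ i x, ∃ d : α → ℕ, (∃ N, ∀ y ∈ c i x, d y < N) ∧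
      ∀ y ∈ c i x, ∀ z ∈ c i x, d y = d z → ∃ w ∈ c i x, d w = d y ∧ r w y ∧ r w z :=
    fun i x => directed_split hrefl hr (hc i x)
  -- make the choice depend only on the set
  have hd' : ∀ C : Set α, ∃ d : α → ℕ, FAC r C → (∃ N, ∀ y ∈ C, d y < N) ∧
      ∀ y ∈ C, ∀ z ∈ C, d y = d z → ∃ w ∈ C, d w = d y ∧ r w y ∧ r w z := by
    intro C
    by_cases h : FAC r C
    · obtain ⟨d, hd⟩ := directed_split hrefl hr h
      exact ⟨d, fun _ => hd⟩
    · exact ⟨fun _ => 0, fun h' => absurd h' h⟩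
  choose d hd using hd'
  let ρ : θ → α → ℕ := fun i x => d (c i x) x
  have hcc : ∀ i x y, y ∈ c i x → c i y = c i x := by
    intro i x y hy
    ext z
    constructor
    · rintro ⟨hz1, hz2⟩
      exact ⟨hz1, hz2.trans hy.2⟩
    · rintro ⟨hz1, hz2⟩
      exact ⟨hz1, hz2.trans hy.2.symm⟩
  have hgi : ∀ i, Good r (Ai i) (fun x => (πi i x, ρ i x)) := by
    intro i
    refine (hπg i).refine hr fun x hx => good_of_bounded ?_
    obtain ⟨N, hN⟩ := (hd (c i x) (hc i x)).1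
    refine ⟨N, fun y hy => ?_⟩
    have h1 : ρ i y = d (c i x) y := by
      simp only [ρ]
      rw [hcc i x y hy]
    rw [h1]
    exact hN y hy
  let π0 : α → (θ × Set α) × ℕ := fun x => ((τ x, πi (τ x) x), ρ (τ x) x)
  -- properties of pieces
  have hp1 : ∀ x ∈ A, ∀ y ∈ A, π0 y = π0 x → τ y = τ x ∧ πi (τ x) y = πi (τ x) x ∧
      y ∈ c (τ x) x ∧ ρ (τ x) y = ρ (τ x) x := by
    intro x hx y hy h
    simp only [π0, Prod.mk.injEq] at h
    obtain ⟨⟨h1, h2⟩, h3⟩ := h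
    rw [h1] at h2 h3
    exact ⟨h1, h2, ⟨⟨hy, h1⟩, h2⟩, h3⟩
  have hdir : ∀ x ∈ A, ∀ y ∈ A, ∀ z ∈ A, π0 y = π0 x → π0 z = π0 x →
      ∃ w ∈ A, π0 w = π0 x ∧ r w y ∧ r w z := by
    intro x hx y hy z hz hyx hzx
    obtain ⟨hy1, hy2, hy3, hy4⟩ := hp1 x hx y hy hyx
    obtain ⟨hz1, hz2, hz3, hz4⟩ := hp1 x hx z hz hzx
    have hxc : x ∈ c (τ x) x := ⟨⟨hx, rfl⟩, rfl⟩
    have e1 : ∀ u ∈ c (τ x) x, ρ (τ x) u = d (c (τ x) x) u := by
      intro u hu
      simp only [ρ]
      rw [hcc _ _ _ hu]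
    rw [e1 y hy3, e1 x hxc] at hy4
    rw [e1 z hz3, e1 x hxc] at hz4
    obtain ⟨w, hw, hw1, hw2, hw3⟩ := (hd (c (τ x) x) (hc _ _)).2 y hy3 z hz3
      (hy4.trans hz4.symm)
    refine ⟨w, hw.1.1, ?_, hw2, hw3⟩
    simp only [π0, Prod.mk.injEq]
    have h5 : τ w = τ x := hw.1.2
    rw [h5]
    refine ⟨⟨rfl, hw.2⟩, ?_⟩
    rw [e1 w hw, e1 x hxc, hw1, hy4]
  have hcomp : ∀ i x, ∀ u ∈ c i x, ∀ v ∈ c i x, r u v →
      Sd r A τ (Ai i) u = Sd r A τ (Ai i) v ∧ DS r A τ v u ⊆ Sd r A τ (Ai i) v := by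
    intro i x u hu v hv huv
    have h1 := hπs i v hv.1 u hu.1 (hv.2.trans hu.2.symm)
    have h2 : DS r A τ u v = ∅ := DS_of_le hr huv
    have h3 : (Sd r A τ (Ai i) v).encard ≤ (Sd r A τ (Ai i) u).encard :=
      h1.2 (by rw [h2]; exact Set.finite_empty)
    have h4 : Sd r A τ (Ai i) u ⊆ Sd r A τ (Ai i) v := Sd_mono hr huv h1.1
    refine ⟨(Sd_finite hr hA hτ (hAi i) u).eq_of_subset_of_encard_le h4 h3, fun j hj => ?_⟩
    exact ⟨u, hu.1, huv, h1.1, hj⟩
  have hsep : ∀ x ∈ A, ∀ y ∈ A, ∀ z ∈ A, π0 y = π0 x → π0 z = π0 x →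
      DS r A τ y z ⊆ Sd r A τ (Ai (τ x)) x := by
    intro x hx y hy z hz hyx hzx
    obtain ⟨w, hw, hwx, hwy, hwz⟩ := hdir x hx y hy z hz hyx hzx
    obtain ⟨w', hw', hwx', hwx1', hwy'⟩ := hdir x hx x hx y hy rfl hyx
    have hxc : x ∈ c (τ x) x := ⟨⟨hx, rfl⟩, rfl⟩
    have hyc := (hp1 x hx y hy hyx).2.2.1
    have hwc := (hp1 x hx w hw hwx).2.2.1
    have hwc' := (hp1 x hx w' hw' hwx').2.2.1
    have h1 := hcomp _ _ w' hwc' x hxc hwx1'
    have h2 := hcomp _ _ w' hwc' y hyc hwy'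
    have h3 := hcomp _ _ w hwc y hyc hwy
    have h4 := DS_triangle (r := r) (A := A) (τ := τ) y w z
    rw [DS_of_le hr hwz, Set.union_empty] at h4
    rw [← h1.1, h2.1]
    exact h4.trans h3.2
  have hgood : Good r A π0 := by
    intro f hf
    by_contra hcon
    push Not at hcon
    obtain ⟨g, hg, h1 | h1⟩ := ramsey (fun a b => τ (f a) = τ (f b)) (fun a b c => Eq.trans)
    · -- constant level
      have h2 : ∀ n, τ (f (g n)) = τ (f (g 0)) := by
        intro n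
        rcases Nat.eq_zero_or_pos n with h | h
        · rw [h]
        · exact (h1 0 n h).symm
      obtain ⟨m, n, hmn, h3⟩ := hgi (τ (f (g 0))) (fun n => f (g n)) fun n => ⟨hf _, h2 n⟩
      obtain ⟨h4, h5⟩ := hcon _ _ (hg hmn)
      have e : ∀ a, τ a = τ (f (g 0)) →
          π0 a = ((τ (f (g 0)), πi (τ (f (g 0))) a), ρ (τ (f (g 0))) a) := by
        intro a ha
        simp only [π0]
        rw [ha]
      rcases h3 with h3 | h3
      · apply h4
        simp only [Prod.mk.injEq] at h3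
        rw [e _ (h2 m), e _ (h2 n), h3.1, h3.2]
      · apply h5
        intro a ha b hb ha1 hb1
        have ha2 : τ a = τ (f (g 0)) := by
          have := congrArg (fun p => p.1.1) ha1
          exact this.trans (h2 m)
        have hb2 : τ b = τ (f (g 0)) := by
          have := congrArg (fun p => p.1.1) hb1
          exact this.trans (h2 n)
        refine h3 a ⟨ha, ha2⟩ b ⟨hb, hb2⟩ ?_ ?_
        · rw [e _ ha2, e _ (h2 m)] at ha1
          simp only [Prod.mk.injEq, true_and] at ha1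
          exact Prod.ext ha1.1 ha1.2
        · rw [e _ hb2, e _ (h2 n)] at hb1
          simp only [Prod.mk.injEq, true_and] at hb1
          exact Prod.ext hb1.1 hb1.2
    · -- increasing level
      obtain ⟨g', hg', h2 | h2⟩ := ramsey (fun a b => τ (f (g a)) < τ (f (g b)))
        (fun a b c => lt_trans)
      swap
      · apply not_strictAnti_of_wellFoundedLT (fun n => τ (f (g (g' n))))
        intro m n hmn
        exact lt_of_le_of_ne (not_lt.mp (h2 m n hmn)) (Ne.symm (h1 _ _ (hg' hmn)))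
      let F : ℕ → α := fun n => f (g (g' n))
      have hF : ∀ n, F n ∈ A := fun n => hf _
      have hFτ : StrictMono fun n => τ (F n) := fun m n hmn => h2 m n hmn
      have hFbad : ∀ m n, m < n → ¬ Le r A π0 (F m) (F n) := fun m n hmn =>
        (hcon _ _ (hg (hg' hmn))).2
      have hT : ∀ n, (Sd r A τ (Ai (τ (F n))) (F n)).Finite := fun n =>
        Sd_finite hr hA hτ (hAi _) _
      obtain ⟨h, _, hh⟩ : ∃ h : ℕ → ℕ, (∀ _n : ℕ, True) ∧ ∀ m n, m < n →
          (h m < h n ∧ τ (F (h n)) ∉ Sd r A τ (Ai (τ (F (h m)))) (F (h m))) := by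
        apply exists_seq_of_forall_finset_exists (fun _ : ℕ => True)
          (fun a b => a < b ∧ τ (F b) ∉ Sd r A τ (Ai (τ (F a))) (F a))
        intro s _
        have hfin : (⋃ a ∈ s, Sd r A τ (Ai (τ (F a))) (F a)).Finite :=
          Set.Finite.biUnion s.finite_toSet fun a _ => hT a
        have hfin2 : ((fun n : ℕ => τ (F n)) ⁻¹'
            (⋃ a ∈ s, Sd r A τ (Ai (τ (F a))) (F a))).Finite :=
          hfin.preimage hFτ.injective.injOn
        obtain ⟨b, hb⟩ := (hfin2.union (Set.finite_Iic (s.sup id))).infinite_compl.nonempty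
        simp only [Set.mem_compl_iff, Set.mem_union, Set.mem_preimage, Set.mem_iUnion,
          Set.mem_Iic, not_or, not_exists, not_le] at hb
        refine ⟨b, trivial, fun a ha => ⟨?_, hb.1 a ha⟩⟩
        have h5 : id a ≤ s.sup id := Finset.le_sup ha
        exact lt_of_le_of_lt h5 hb.2
      have h3 : ∀ m n, m < n → ∃ b ∈ A, π0 b = π0 (F (h n)) ∧
          ∀ a ∈ A, π0 a = π0 (F (h m)) → ¬ r a b := by
        intro m n hmn
        have h4 := hFbad _ _ (hh m n hmn).1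
        simp only [Le] at h4
        push Not at h4
        obtain ⟨a, ha, b, hb, ha1, hb1, hab⟩ := h4
        refine ⟨b, hb, hb1, fun a' ha' ha1' hab' => ?_⟩
        apply (hh m n hmn).2
        have h5 : τ b ∈ DS r A τ a a' := ⟨b, hb, rfl, hab', hab⟩
        rw [(hp1 _ (hF _) b hb hb1).1] at h5
        exact hsep _ (hF _) a ha a' ha' ha1 ha1' h5
      have h4 : ∀ n, ∃ x ∈ A, π0 x = π0 (F (h n)) ∧
          ∀ m, m < n → ∀ a ∈ A, π0 a = π0 (F (h m)) → ¬ r a x := by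
        intro n
        have h5 : ∀ k, k ≤ n → ∃ x ∈ A, π0 x = π0 (F (h n)) ∧
            ∀ m, m < k → ∀ a ∈ A, π0 a = π0 (F (h m)) → ¬ r a x := by
          intro k
          induction k with
          | zero => exact fun _ => ⟨F (h n), hF _, rfl, fun m hm => absurd hm (Nat.not_lt_zero m)⟩
          | succ k ih =>
            intro hk
            obtain ⟨x, hx, hx1, hx2⟩ := ih (by omega)
            obtain ⟨b, hb, hb1, hb2⟩ := h3 k n (by omega)
            obtain ⟨w, hw, hw1, hw2, hw3⟩ := hdir _ (hF _) x hx b hb hx1 hb1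
            refine ⟨w, hw, hw1, fun m hm a ha ha1 haw => ?_⟩
            rcases Nat.lt_or_ge m k with h6 | h6
            · exact hx2 m h6 a ha ha1 (hr _ _ _ haw hw2)
            · have h7 : m = k := by omega
              rw [h7] at ha1
              exact hb2 a ha ha1 (hr _ _ _ haw hw3)
        exact h5 n le_rfl
      choose x hxA hx1 hx2 using h4
      obtain ⟨m, n, hmn, h5 | h5⟩ := hA x hxA
      · exact hx2 n m hmn (x m) (hxA m) (hx1 m) h5
      · have h6 := hτ _ (hxA n) _ (hxA m) h5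
        rw [(hp1 _ (hF _) _ (hxA n) (hx1 n)).1, (hp1 _ (hF _) _ (hxA m) (hx1 m)).1] at h6
        exact absurd (hFτ (hh m n hmn).1) (not_lt.mpr h6)
  refine ⟨fun x => {y | π0 y = π0 x}, hgood.toSet, fun x hx y hy hxy => ?_⟩
  exact congrArg (fun p => p.1.1) ((toSet_eq π0 x y).mp hxy)

end Pool.Agent.Lib.MP_fbb83b_lc
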