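import Mathlib
import Pool.Agent.Lib.MP_fbb83b_lc.ThmG3

set_option autoImplicit false

namespace Pool.Agent.Lib.MP_fbb83b_lc

theorem Good.congr {α ι : Type*} {r : α → α → Prop} {A : Set α} {π π' : α → ι}
    (h : Good r A π) (hπ : ∀ x ∈ A, π x = π' x) : Good r A π' := by
  refine WQ.mono h (Set.Subset.refl _) fun x hx y hy hxy => ?_
  rcases hxy with hxy | hxy
  · exact Or.inl (by rw [← hπ x hx, ← hπ y hy, hxy])
  · refine Or.inr fun a ha b hb h1 h2 => hxy a ha b hb ?_ ?_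
    · rw [hπ a ha, hπ x hx, h1]
    · rw [hπ b hb, hπ y hy, h2]

theorem subseq_or {α : Type*} (f : ℕ → α) (p : α → Prop) :
    ∃ g : ℕ → ℕ, StrictMono g ∧ ((∀ n, p (f (g n))) ∨ ∀ n, ¬ p (f (g n))) := by
  obtain ⟨g, hg⟩ := Nat.exists_subseq_of_forall_mem_union (s := {x | p x}) (t := {x | ¬ p x}) f
    (fun n => Classical.em _)
  exact ⟨g, g.strictMono, hg⟩

/-- All elements of `B` are equivalent. -/
def Triv {α : Type*} (r : α → α → Prop) (B : Set α) : Prop := ∀ x ∈ B, ∀ y ∈ B, r x y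

/-- A good decomposition into pieces in the class `C`. -/
def Half {α : Type*} (r : α → α → Prop) (C : Set α → Prop) (A : Set α) : Prop :=
  ∃ π : α → Set α, Good r A π ∧ ∀ x ∈ A, C {y | y ∈ A ∧ π y = π x}

/-- The union of a good and of a dually good decomposition. -/
def Node {α : Type*} (r : α → α → Prop) (C : Set α → Prop) (A : Set α) : Prop :=
  ∃ A1 A2, A = A1 ∪ A2 ∧ Half r C A1 ∧ Half (fun x y => r y x) C A2

theorem Half.imp {α : Type*} {r : α → α → Prop} {C C' : Set α → Prop} {A : Set α}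
    (h : Half r C A) (hC : ∀ B, B ⊆ A → C B → C' B) : Half r C' A := by
  obtain ⟨π, h1, h2⟩ := h
  exact ⟨π, h1, fun x hx => hC _ (fun y hy => hy.1) (h2 x hx)⟩

theorem Half.subset {α : Type*} {r : α → α → Prop} {C : Set α → Prop}
    (hC : ∀ A B : Set α, C A → B ⊆ A → C B) {A B : Set α} (h : Half r C A) (hBA : B ⊆ A) :
    Half r C B := by
  obtain ⟨π, h1, h2⟩ := h
  exact ⟨π, h1.mono hBA, fun x hx => hC _ _ (h2 x (hBA hx)) fun y hy => ⟨hBA hy.1, hy.2⟩⟩

theorem Half.of_index {α ι : Type*} {r : α → α → Prop} {C : Set α → Prop}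
    {A : Set α} {π : α → ι} (h1 : Good r A π) (h2 : ∀ x ∈ A, C {y | y ∈ A ∧ π y = π x}) :
    Half r C A := by
  refine ⟨fun x => {y | π y = π x}, h1.toSet, fun x hx => ?_⟩
  have h3 : ({y | y ∈ A ∧ ({z | π z = π y} : Set α) = {z | π z = π x}} : Set α) =
      {y | y ∈ A ∧ π y = π x} := by
    ext y
    simp only [Set.mem_ofPred_eq, toSet_eq]
  rw [h3]
  exact h2 x hx

theorem Half.union {α : Type*} {r : α → α → Prop} {C : Set α → Prop}
    (hC : ∀ A B : Set α, C A → B ⊆ A → C B) {A B : Set α} (hA : Half r C A)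
    (hB : Half r C B) : Half r C (A ∪ B) := by
  classical
  obtain ⟨π1, h1, h2⟩ := hA
  obtain ⟨π2, h3, h4⟩ := hB
  let π : α → Bool × Set α := fun x => if x ∈ A then (true, π1 x) else (false, π2 x)
  have e1 : ∀ x ∈ A, π x = (true, π1 x) := fun x hx => if_pos hx
  have e2 : ∀ x ∉ A, π x = (false, π2 x) := fun x hx => if_neg hx
  have e3 : ∀ x ∈ A, ∀ y, π y = π x → y ∈ A ∧ π1 y = π1 x := by
    intro x hx y hxy
    by_cases hy : y ∈ A
    · rw [e1 x hx, e1 y hy] at hxy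
      exact ⟨hy, (Prod.ext_iff.mp hxy).2⟩
    · rw [e1 x hx, e2 y hy] at hxy
      exact absurd (Prod.ext_iff.mp hxy).1 Bool.false_ne_true
  have e4 : ∀ x ∉ A, ∀ y, π y = π x → y ∉ A ∧ π2 y = π2 x := by
    intro x hx y hxy
    by_cases hy : y ∈ A
    · rw [e2 x hx, e1 y hy] at hxy
      exact absurd (Prod.ext_iff.mp hxy).1.symm Bool.false_ne_true
    · rw [e2 x hx, e2 y hy] at hxy
      exact ⟨hy, (Prod.ext_iff.mp hxy).2⟩
  refine Half.of_index (π := π) ?_ ?_
  · intro f hf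
    obtain ⟨g, hg, h5 | h5⟩ := subseq_or f (fun x => x ∈ A)
    · obtain ⟨m, n, hmn, h6⟩ := h1 (fun n => f (g n)) h5
      refine ⟨g m, g n, hg hmn, ?_⟩
      rcases h6 with h6 | h6
      · left
        rw [e1 _ (h5 m), e1 _ (h5 n), h6]
      · right
        intro a _ b _ ha1 hb1
        obtain ⟨ha2, ha3⟩ := e3 _ (h5 m) a ha1
        obtain ⟨hb2, hb3⟩ := e3 _ (h5 n) b hb1
        exact h6 a ha2 b hb2 ha3 hb3
    · have h7 : ∀ n, f (g n) ∈ B := fun n => (hf (g n)).resolve_left (h5 n)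
      obtain ⟨m, n, hmn, h6⟩ := h3 (fun n => f (g n)) h7
      refine ⟨g m, g n, hg hmn, ?_⟩
      rcases h6 with h6 | h6
      · left
        rw [e2 _ (h5 m), e2 _ (h5 n), h6]
      · right
        intro a ha b hb ha1 hb1
        obtain ⟨ha2, ha3⟩ := e4 _ (h5 m) a ha1
        obtain ⟨hb2, hb3⟩ := e4 _ (h5 n) b hb1
        exact h6 a (ha.resolve_left ha2) b (hb.resolve_left hb2) ha3 hb3
  · intro x hx
    by_cases hxA : x ∈ A
    · refine hC _ _ (h2 x hxA) fun y hy => ?_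
      exact e3 x hxA y hy.2
    · refine hC _ _ (h4 x (hx.resolve_left hxA)) fun y hy => ?_
      obtain ⟨h5, h6⟩ := e4 x hxA y hy.2
      exact ⟨hy.1.resolve_left h5, h6⟩

theorem Half.empty {α : Type*} {r : α → α → Prop} {C : Set α → Prop} : Half r C ∅ :=
  ⟨fun _ => ∅, fun f hf => absurd (hf 0) (Set.notMem_empty _),
    fun x hx => absurd hx (Set.notMem_empty _)⟩

theorem Half.of_self {α : Type*} {r : α → α → Prop} {C : Set α → Prop} {A : Set α} (h : C A) :
    Half r C A := by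
  refine ⟨fun _ => ∅, fun f hf => ⟨0, 1, Nat.zero_lt_one, Or.inl rfl⟩, fun x hx => ?_⟩
  have h1 : ({y | y ∈ A ∧ (∅ : Set α) = ∅} : Set α) = A := by
    ext y
    simp only [and_true, Set.mem_ofPred_eq]
  rw [h1]
  exact h

theorem GP_iff {α : Type*} {r : α → α → Prop} {A : Set α} :
    GP r A ↔ ∀ s : α → α → Prop, (∀ x ∈ A, ∀ y ∈ A, ∀ z ∈ A, s x y → s y z → s x z) →
    (∀ x ∈ A, ∀ y ∈ A, r x y → s x y) → WQ s A → Half r (Triv s) A := by
  constructor
  · intro h s h1 h2 h3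
    obtain ⟨π, h4, h5⟩ := h s h1 h2 h3
    exact ⟨π, h4, fun x hx y hy z hz => h5 y hy.1 z hz.1 (hy.2.trans hz.2.symm)⟩
  · intro h s h1 h2 h3
    obtain ⟨π, h4, h5⟩ := h s h1 h2 h3
    exact ⟨π, h4, fun x hx y hy hxy => h5 y hy x ⟨hx, hxy⟩ y ⟨hy, rfl⟩⟩

theorem Triv.subset {α : Type*} {r : α → α → Prop} (A B : Set α) (h : Triv r A) (hBA : B ⊆ A) :
    Triv r B := fun x hx y hy => h x (hBA hx) y (hBA hy)

theorem GP.union {α : Type*} {r : α → α → Prop} {A B : Set α} (hA : GP r A) (hB : GP r B) :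
    GP r (A ∪ B) := by
  rw [GP_iff] at hA hB ⊢
  intro s h1 h2 h3
  apply Half.union Triv.subset
  · exact hA s (fun x hx y hy z hz => h1 x (Or.inl hx) y (Or.inl hy) z (Or.inl hz))
      (fun x hx y hy => h2 x (Or.inl hx) y (Or.inl hy))
      (h3.mono (fun x hx => Or.inl hx) fun _ _ _ _ h => h)
  · exact hB s (fun x hx y hy z hz => h1 x (Or.inr hx) y (Or.inr hy) z (Or.inr hz))
      (fun x hx y hy => h2 x (Or.inr hx) y (Or.inr hy))
      (h3.mono (fun x hx => Or.inr hx) fun _ _ _ _ h => h)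

theorem GP.of_triv {α : Type*} {r : α → α → Prop} {A : Set α} (h : Triv r A) : GP r A := by
  rw [GP_iff]
  intro s _ h2 _
  exact Half.of_self fun x hx y hy => h2 x hx y hy (h x hx y hy)

/-- choice of a good partition for each set -/
theorem choose_parts {α : Type*} {r : α → α → Prop} {C : Set α → Prop} {A : Set α}
    (hC : ∀ B ⊆ A, C B → GP r B) (s : α → α → Prop)
    (h1 : ∀ x ∈ A, ∀ y ∈ A, ∀ z ∈ A, s x y → s y z → s x z)
    (h2 : ∀ x ∈ A, ∀ y ∈ A, r x y → s x y) (h3 : WQ s A) :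
    ∃ F : Set α → α → Set α, ∀ B ⊆ A, C B → Good r B (F B) ∧
      ∀ x ∈ B, ∀ y ∈ B, F B x = F B y → s x y := by
  have key : ∀ B : Set α, ∃ π : α → Set α, B ⊆ A → C B → Good r B π ∧
      ∀ x ∈ B, ∀ y ∈ B, π x = π y → s x y := by
    intro B
    by_cases h : B ⊆ A ∧ C B
    · obtain ⟨hB, hCB⟩ := h
      obtain ⟨π, h4, h5⟩ := hC B hB hCB s
        (fun x hx y hy z hz => h1 x (hB hx) y (hB hy) z (hB hz))
        (fun x hx y hy => h2 x (hB hx) y (hB hy)) (h3.mono hB fun _ _ _ _ h => h)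
      exact ⟨π, fun _ _ => ⟨h4, h5⟩⟩
    · exact ⟨fun _ => ∅, fun h4 h5 => absurd ⟨h4, h5⟩ h⟩
  choose F hF using key
  exact ⟨F, hF⟩

theorem gp_half {α : Type*} {r : α → α → Prop} (hr : ∀ x y z, r x y → r y z → r x z)
    {C : Set α → Prop} {A : Set α} (hC : ∀ B ⊆ A, C B → GP r B) (h : Half r C A) :
    GP r A := by
  rw [GP_iff]
  intro s h1 h2 h3
  obtain ⟨F, hF⟩ := choose_parts hC s h1 h2 h3
  obtain ⟨π, h4, h5⟩ := h
  let c : α → Set α := fun x => {y | y ∈ A ∧ π y = π x}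
  have hcA : ∀ x, c x ⊆ A := fun x y hy => hy.1
  have hcc : ∀ x, ∀ y ∈ c x, c y = c x := by
    intro x y hy
    ext z
    exact ⟨fun hz => ⟨hz.1, hz.2.trans hy.2⟩, fun hz => ⟨hz.1, hz.2.trans hy.2.symm⟩⟩
  refine Half.of_index (π := fun x => (π x, F (c x) x)) (h4.refine hr fun x hx => ?_)
    fun x hx => ?_
  · refine (hF (c x) (hcA x) (h5 x hx)).1.congr fun y hy => ?_
    rw [hcc x y hy]
  · intro y hy z hz
    have hy1 : y ∈ c x := ⟨hy.1, (Prod.ext_iff.mp hy.2).1⟩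
    have hz1 : z ∈ c x := ⟨hz.1, (Prod.ext_iff.mp hz.2).1⟩
    refine (hF (c x) (hcA x) (h5 x hx)).2 y hy1 z hz1 ?_
    have h6 := (Prod.ext_iff.mp hy.2).2
    have h7 := (Prod.ext_iff.mp hz.2).2
    simp only [hcc x y hy1] at h6
    simp only [hcc x z hz1] at h7
    exact h6.trans h7.symm

theorem gp_half_dual {α : Type*} {r : α → α → Prop} (hrefl : ∀ x, r x x)
    (hr : ∀ x y z, r x y → r y z → r x z)
    {C : Set α → Prop} {A : Set α} (hC : ∀ B ⊆ A, C B → GP r B)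
    (h : Half (fun x y => r y x) C A) : GP r A := by
  classical
  have hr' : ∀ x y z, r y x → r z y → r z x := fun x y z h1 h2 => hr _ _ _ h2 h1
  intro s h1 h2 h3
  obtain ⟨F, hF⟩ := choose_parts hC s h1 h2 h3
  obtain ⟨π, h4, h5⟩ := h
  let c : α → Set α := fun x => {y | y ∈ A ∧ π y = π x}
  have hcA : ∀ x, c x ⊆ A := fun x y hy => hy.1
  have hcc : ∀ x, ∀ y ∈ c x, c y = c x := by
    intro x y hy
    ext z
    exact ⟨fun hz => ⟨hz.1, hz.2.trans hy.2⟩, fun hz => ⟨hz.1, hz.2.trans hy.2.symm⟩⟩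
  let cl : α → Set α := fun x => {y | y ∈ A ∧ s x y ∧ s y x}
  let π' : α → Bool × Set α × Set α := fun x =>
    if Triv s (c x) then (true, cl x, ∅) else (false, π x, F (c x) x)
  have e1 : ∀ x, Triv s (c x) → π' x = (true, cl x, ∅) := fun x hx => if_pos hx
  have e2 : ∀ x, ¬ Triv s (c x) → π' x = (false, π x, F (c x) x) := fun x hx => if_neg hx
  have hcl : ∀ x ∈ A, ∀ y ∈ A, s x y → s y x → cl x = cl y := by
    intro x hx y hy hxy hyx
    ext z
    constructor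
    · rintro ⟨hz1, hz2, hz3⟩
      exact ⟨hz1, h1 y hy x hx z hz1 hyx hz2, h1 z hz1 x hx y hy hz3 hxy⟩
    · rintro ⟨hz1, hz2, hz3⟩
      exact ⟨hz1, h1 x hx y hy z hz1 hxy hz2, h1 z hz1 y hy x hx hz3 hyx⟩
  have hconst : ∀ x ∈ A, ∀ y ∈ A, π' x = π' y → s x y := by
    intro x hx y hy hxy
    by_cases hxT : Triv s (c x)
    · by_cases hyT : Triv s (c y)
      · rw [e1 x hxT, e1 y hyT] at hxy
        have h6 : cl x = cl y := (Prod.ext_iff.mp (Prod.ext_iff.mp hxy).2).1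
        have h7 : y ∈ cl y := ⟨hy, h2 y hy y hy (hrefl y), h2 y hy y hy (hrefl y)⟩
        rw [← h6] at h7
        exact h7.2.1
      · rw [e1 x hxT, e2 y hyT] at hxy
        exact absurd (Prod.ext_iff.mp hxy).1.symm Bool.false_ne_true
    · by_cases hyT : Triv s (c y)
      · rw [e2 x hxT, e1 y hyT] at hxy
        exact absurd (Prod.ext_iff.mp hxy).1 Bool.false_ne_true
      · rw [e2 x hxT, e2 y hyT] at hxy
        have h6 := (Prod.ext_iff.mp (Prod.ext_iff.mp hxy).2).1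
        have h7 := (Prod.ext_iff.mp (Prod.ext_iff.mp hxy).2).2
        simp only at h6 h7
        have hyc : y ∈ c x := ⟨hy, h6.symm⟩
        rw [hcc x y hyc] at h7
        exact (hF (c x) (hcA x) (h5 x hx)).2 x ⟨hx, rfl⟩ y hyc h7
  have hgood : Good r A π' := by
    intro f hf
    obtain ⟨g0, hg0, hT⟩ := subseq_or f (fun x => Triv s (c x))
    obtain ⟨g1, hg1, h6⟩ := Good.subseq (r := fun x y => r y x) hr' h4
      (f := fun n => f (g0 n)) fun n => hf _
    have hfa : ∀ n, f (g0 (g1 n)) ∈ A := fun n => hf _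
    rcases hT with hT | hT
    · -- constant pieces
      have h7 : ∀ m n, m < n → s (f (g0 (g1 n))) (f (g0 (g1 m))) := by
        intro m n hmn
        rcases h6 with h6 | h6
        · exact hT (g1 n) _ ⟨hfa n, rfl⟩ _ ⟨hfa m, h6 m n⟩
        · exact h2 _ (hfa n) _ (hfa m) ((h6 m n hmn).2 _ (hfa m) _ (hfa n) rfl rfl)
      obtain ⟨m, n, hmn, h8⟩ := h3 (fun n => f (g0 (g1 n))) hfa
      refine ⟨g0 (g1 m), g0 (g1 n), hg0 (hg1 hmn), Or.inl ?_⟩
      rw [e1 _ (hT _), e1 _ (hT _), hcl _ (hfa m) _ (hfa n) h8 (h7 m n hmn)]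
    · rcases h6 with h6 | h6
      · -- one piece
        have hin : ∀ n, f (g0 (g1 n)) ∈ c (f (g0 (g1 0))) := fun n => ⟨hfa n, h6 n 0⟩
        have hc0 : ∀ n, c (f (g0 (g1 n))) = c (f (g0 (g1 0))) := fun n => hcc _ _ (hin n)
        obtain ⟨m, n, hmn, h8⟩ := (hF (c (f (g0 (g1 0)))) (hcA _) (h5 _ (hfa 0))).1
          (fun n => f (g0 (g1 n))) hin
        refine ⟨g0 (g1 m), g0 (g1 n), hg0 (hg1 hmn), ?_⟩
        rcases h8 with h8 | h8
        · left
          rw [e2 _ (hT _), e2 _ (hT _), h6 m n, hc0 m, hc0 n, h8]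
        · right
          have key : ∀ k, ∀ a ∈ A, π' a = π' (f (g0 (g1 k))) → a ∈ c (f (g0 (g1 0))) ∧
              F (c (f (g0 (g1 0)))) a = F (c (f (g0 (g1 0)))) (f (g0 (g1 k))) := by
            intro k a ha hak
            by_cases haT : Triv s (c a)
            · rw [e1 _ haT, e2 _ (hT _)] at hak
              exact absurd (Prod.ext_iff.mp hak).1.symm Bool.false_ne_true
            · rw [e2 _ haT, e2 _ (hT _)] at hak
              have h9 := (Prod.ext_iff.mp (Prod.ext_iff.mp hak).2).1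
              have h10 := (Prod.ext_iff.mp (Prod.ext_iff.mp hak).2).2
              simp only at h9 h10
              have hac : a ∈ c (f (g0 (g1 0))) := ⟨ha, h9.trans (h6 k 0)⟩
              rw [hcc _ _ hac, hc0 k] at h10
              exact ⟨hac, h10⟩
          intro a ha b hb ha1 hb1
          obtain ⟨ha2, ha3⟩ := key m a ha ha1
          obtain ⟨hb2, hb3⟩ := key n b hb hb1
          exact h8 a ha2 b hb2 ha3 hb3
      · -- impossible
        exfalso
        have h7 : ∀ n, ∃ x ∈ c (f (g0 (g1 n))), ∃ y ∈ c (f (g0 (g1 n))), ¬ s x y := by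
          intro n
          have h8 := hT (g1 n)
          simp only [Triv] at h8
          push Not at h8
          exact h8
        choose x hx y hy hxy using h7
        obtain ⟨m, n, hmn, h8⟩ := h3 x fun n => (hx n).1
        apply hxy m
        have h9 : r (x n) (y m) := (h6 m n hmn).2 (y m) (hy m).1 (x n) (hx n).1 (hy m).2 (hx n).2
        exact h1 _ (hx m).1 _ (hx n).1 _ (hy m).1 h8 (h2 _ (hx n).1 _ (hy m).1 h9)
  refine ⟨fun x => {y | π' y = π' x}, hgood.toSet, fun x hx y hy hxy => ?_⟩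
  exact hconst x hx y hy ((toSet_eq π' x y).mp hxy)

end Pool.Agent.Lib.MP_fbb83b_lc
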