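import Mathlib
import Pool.Agent.Lib.MP_fbb83b_lc.TD

set_option autoImplicit false

namespace Pool.Agent.Lib.MP_fbb83b_lc

/-- Decomposability of rank at most `β`. -/
def TD {α : Type} (r : α → α → Prop) (β : Ordinal.{0}) (A : Set α) : Prop :=
  Node r (fun B => Triv r B ∨ ∃ γ, ∃ _ : γ < β, TD r γ B) A
termination_by β

/-- Trivial, or decomposable of rank less than `β`. -/
def CC {α : Type} (r : α → α → Prop) (β : Ordinal.{0}) (B : Set α) : Prop :=
  Triv r B ∨ ∃ γ, γ < β ∧ TD r γ B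

variable {α : Type} {r : α → α → Prop}

theorem TD_iff {β : Ordinal.{0}} {A : Set α} : TD r β A ↔ Node r (CC r β) A := by
  rw [TD]
  have h : (fun B => Triv r B ∨ ∃ γ, ∃ _ : γ < β, TD r γ B) = CC r β := by
    funext B
    simp only [CC, exists_prop]
  rw [h]

theorem Node.imp {C C' : Set α → Prop} {A : Set α}
    (h : Node r C A) (hC : ∀ B, B ⊆ A → C B → C' B) : Node r C' A := by
  obtain ⟨A1, A2, h1, h2, h3⟩ := h
  have s1 : A1 ⊆ A := by rw [h1]; exact Set.subset_union_left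
  have s2 : A2 ⊆ A := by rw [h1]; exact Set.subset_union_right
  exact ⟨A1, A2, h1, h2.imp fun B hB => hC B (hB.trans s1),
    h3.imp fun B hB => hC B (hB.trans s2)⟩

theorem Node.subset {C : Set α → Prop}
    (hC : ∀ A B : Set α, C A → B ⊆ A → C B) {A B : Set α} (h : Node r C A) (hBA : B ⊆ A) :
    Node r C B := by
  obtain ⟨A1, A2, h1, h2, h3⟩ := h
  refine ⟨B ∩ A1, B ∩ A2, ?_, h2.subset hC Set.inter_subset_right,
    h3.subset hC Set.inter_subset_right⟩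
  rw [← Set.inter_union_distrib_left, ← h1]
  exact (Set.inter_eq_left.mpr hBA).symm

theorem Node.union {C : Set α → Prop}
    (hC : ∀ A B : Set α, C A → B ⊆ A → C B) {A B : Set α} (hA : Node r C A)
    (hB : Node r C B) : Node r C (A ∪ B) := by
  obtain ⟨A1, A2, h1, h2, h3⟩ := hA
  obtain ⟨B1, B2, h4, h5, h6⟩ := hB
  refine ⟨A1 ∪ B1, A2 ∪ B2, ?_, h2.union hC h5, h3.union hC h6⟩
  rw [h1, h4]
  exact Set.union_union_union_comm _ _ _ _

theorem Node.flip {C : Set α → Prop} {A : Set α} (h : Node r C A) :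
    Node (fun x y => r y x) C A := by
  obtain ⟨A1, A2, h1, h2, h3⟩ := h
  exact ⟨A2, A1, h1.trans (Set.union_comm _ _), h3, h2⟩

theorem TD.subset {β : Ordinal.{0}} : ∀ {A B : Set α}, TD r β A → B ⊆ A → TD r β B := by
  induction β using WellFoundedLT.induction with
  | _ β ih =>
    intro A B h hBA
    rw [TD_iff] at h ⊢
    refine h.subset ?_ hBA
    rintro A' B' (h1 | ⟨γ, hγ, h1⟩) hB'
    · exact Or.inl (h1.subset _ _ hB')
    · exact Or.inr ⟨γ, hγ, ih γ hγ h1 hB'⟩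

theorem CC.subset {β : Ordinal.{0}} (A B : Set α) (h : CC r β A) (hBA : B ⊆ A) : CC r β B := by
  rcases h with h | ⟨γ, hγ, h⟩
  · exact Or.inl (h.subset _ _ hBA)
  · exact Or.inr ⟨γ, hγ, h.subset hBA⟩

theorem CC.mono {β β' : Ordinal.{0}} (hβ : β ≤ β') {A : Set α} (h : CC r β A) : CC r β' A := by
  rcases h with h | ⟨γ, hγ, h⟩
  · exact Or.inl h
  · exact Or.inr ⟨γ, hγ.trans_le hβ, h⟩

theorem TD.mono {β β' : Ordinal.{0}} (hβ : β ≤ β') {A : Set α} (h : TD r β A) : TD r β' A := by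
  rw [TD_iff] at h ⊢
  exact h.imp fun B _ hB => hB.mono hβ

theorem TD.union {β : Ordinal.{0}} {A B : Set α} (hA : TD r β A) (hB : TD r β B) :
    TD r β (A ∪ B) := by
  rw [TD_iff] at hA hB ⊢
  exact hA.union CC.subset hB

theorem Triv.flip {A : Set α} (h : Triv r A) : Triv (fun x y => r y x) A :=
  fun x hx y hy => h y hy x hx

theorem TD.flip {β : Ordinal.{0}} : ∀ {A : Set α}, TD r β A → TD (fun x y => r y x) β A := by
  induction β using WellFoundedLT.induction with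
  | _ β ih =>
    intro A h
    rw [TD_iff] at h ⊢
    refine (h.flip).imp ?_
    rintro B _ (h1 | ⟨γ, hγ, h1⟩)
    · exact Or.inl h1.flip
    · exact Or.inr ⟨γ, hγ, ih γ hγ h1⟩

theorem CC.flip {β : Ordinal.{0}} {A : Set α} (h : CC r β A) : CC (fun x y => r y x) β A := by
  rcases h with h | ⟨γ, hγ, h⟩
  · exact Or.inl h.flip
  · exact Or.inr ⟨γ, hγ, h.flip⟩

theorem TD.gp (hrefl : ∀ x, r x x) (hr : ∀ x y z, r x y → r y z → r x z) {β : Ordinal.{0}} :
    ∀ {A : Set α}, TD r β A → GP r A := by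
  induction β using WellFoundedLT.induction with
  | _ β ih =>
    intro A h
    rw [TD_iff] at h
    obtain ⟨A1, A2, h1, h2, h3⟩ := h
    have hC : ∀ B, CC r β B → GP r B := by
      rintro B (h1 | ⟨γ, hγ, h1⟩)
      · exact GP.of_triv h1
      · exact ih γ hγ h1
    rw [h1]
    exact (gp_half hr (fun B _ => hC B) h2).union (gp_half_dual hrefl hr (fun B _ => hC B) h3)

theorem CC.gp (hrefl : ∀ x, r x x) (hr : ∀ x y z, r x y → r y z → r x z) {β : Ordinal.{0}}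
    {A : Set α} (h : CC r β A) : GP r A := by
  rcases h with h | ⟨γ, hγ, h⟩
  · exact GP.of_triv h
  · exact h.gp hrefl hr

theorem TD.of_half {β : Ordinal.{0}} {A : Set α} (h : Half r (CC r β) A) : TD r β A := by
  rw [TD_iff]
  exact ⟨A, ∅, (Set.union_empty A).symm, h, Half.empty⟩

theorem TD.of_half_dual {β : Ordinal.{0}} {A : Set α}
    (h : Half (fun x y => r y x) (CC r β) A) : TD r β A := by
  rw [TD_iff]
  exact ⟨∅, A, (Set.empty_union A).symm, Half.empty, h⟩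

theorem TD.of_triv {β : Ordinal.{0}} {A : Set α} (h : Triv r A) : TD r β A :=
  TD.of_half (Half.of_self (Or.inl h))

/-- `A` is decomposable. -/
def TDx (r : α → α → Prop) (A : Set α) : Prop := ∃ β, TD r β A

theorem TDx.subset {A B : Set α} (h : TDx r A) (hBA : B ⊆ A) : TDx r B := by
  obtain ⟨β, h⟩ := h
  exact ⟨β, h.subset hBA⟩

theorem TDx.union {A B : Set α} (hA : TDx r A) (hB : TDx r B) : TDx r (A ∪ B) := by
  obtain ⟨β, hA⟩ := hA
  obtain ⟨γ, hB⟩ := hB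
  exact ⟨max β γ, (hA.mono (le_max_left _ _)).union (hB.mono (le_max_right _ _))⟩

theorem TDx.flip {A : Set α} (h : TDx r A) : TDx (fun x y => r y x) A := by
  obtain ⟨β, h⟩ := h
  exact ⟨β, h.flip⟩

theorem TDx.of_half {A : Set α} (h : Half r (TDx r) A) : TDx r A := by
  obtain ⟨π, h1, h2⟩ := h
  have h3 : ∀ x, ∃ β, x ∈ A → TD r β {y | y ∈ A ∧ π y = π x} := by
    intro x
    by_cases hx : x ∈ A
    · obtain ⟨β, hβ⟩ := h2 x hx
      exact ⟨β, fun _ => hβ⟩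
    · exact ⟨0, fun h => absurd h hx⟩
  choose β hβ using h3
  refine ⟨Order.succ (⨆ x, β x), TD.of_half ⟨π, h1, fun x hx => Or.inr ⟨β x, ?_, hβ x hx⟩⟩⟩
  exact Order.lt_succ_of_le (Ordinal.le_iSup β x)

/-- If all principal ideals are decomposable, so is the set. -/
theorem C3 (hrefl : ∀ x, r x x) (hr : ∀ x y z, r x y → r y z → r x z) {A : Set α}
    (hA : FAC r A) (h : ∀ p ∈ A, TDx r {x | x ∈ A ∧ r x p}) : TDx r A := by
  classical
  obtain ⟨_, _⟩ := exists_wo α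
  have hwf : WellFounded ((· < ·) : α → α → Prop) := wellFounded_lt
  let U : α → Set α := fun x => {p | p ∈ A ∧ r x p}
  let τ : α → α := fun x => if h : (U x).Nonempty then hwf.min (U x) h else x
  have hne : ∀ x ∈ A, (U x).Nonempty := fun x hx => ⟨x, hx, hrefl x⟩
  have hτ : ∀ x (hx : x ∈ A), τ x = hwf.min (U x) (hne x hx) := fun x hx => dif_pos (hne x hx)
  have hτU : ∀ x ∈ A, τ x ∈ U x := by
    intro x hx
    rw [hτ x hx]
    exact hwf.min_mem _ _
  have hτm : ∀ x ∈ A, ∀ y ∈ A, r x y → τ x ≤ τ y := by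
    intro x hx y hy hxy
    have h1 : τ y ∈ U x := ⟨(hτU y hy).1, hr _ _ _ hxy (hτU y hy).2⟩
    rw [hτ x hx]
    exact not_lt.mp (hwf.not_lt_min _ h1)
  obtain ⟨π, hπ, hπτ⟩ := thmG (τ := τ) hrefl hr hA hτm fun i => by
    by_cases hi : i ∈ A
    · obtain ⟨β, hβ⟩ := h i hi
      refine TD.gp hrefl hr (hβ.subset ?_)
      rintro x ⟨hx, rfl⟩
      exact ⟨hx, (hτU x hx).2⟩
    · apply GP.of_triv
      rintro x ⟨hx, rfl⟩
      exact absurd (hτU x hx).1 hi
  refine TDx.of_half ⟨π, hπ, fun x hx => (h (τ x) (hτU x hx).1).subset ?_⟩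
  rintro y ⟨hy, hyx⟩
  refine ⟨hy, ?_⟩
  rw [← hπτ y hy x hx hyx]
  exact (hτU y hy).2

theorem C3' (hrefl : ∀ x, r x x) (hr : ∀ x y z, r x y → r y z → r x z) {A : Set α}
    (hA : FAC r A) (h : ∀ p ∈ A, TDx r {x | x ∈ A ∧ r p x}) : TDx r A :=
  TDx.flip (C3 (r := fun x y => r y x) hrefl (fun x y z h1 h2 => hr _ _ _ h2 h1) hA.flip
    fun p hp => (h p hp).flip)

/-- A poset without infinite antichain and without dense suborder is decomposable. -/
theorem tdx_of_nodense (hrefl : ∀ x, r x x) (hr : ∀ x y z, r x y → r y z → r x z)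
    (hA : FAC r Set.univ)
    (hN : ¬ ∃ R : α → α → Prop, (∀ x y, R x y → r x y ∧ ¬ r y x) ∧
      (∀ x y z, R x y → R y z → R x z) ∧ (∀ x y, R x y → ∃ z, R x z ∧ R z y) ∧
      ∃ x y, R x y) : TDx r Set.univ := by
  by_contra hcon
  apply hN
  have hfac : ∀ B : Set α, FAC r B := fun B => hA.mono (Set.subset_univ B)
  refine ⟨fun x y => r x y ∧ ¬ TDx r {z | r x z ∧ r z y}, ?_, ?_, ?_, ?_⟩
  · rintro x y ⟨h1, h2⟩
    refine ⟨h1, fun h3 => h2 ⟨0, TD.of_triv ?_⟩⟩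
    rintro z ⟨hz1, hz2⟩ w ⟨hw1, hw2⟩
    exact hr _ _ _ hz2 (hr _ _ _ h3 hw1)
  · rintro x y z ⟨h1, h2⟩ ⟨h3, _⟩
    refine ⟨hr _ _ _ h1 h3, fun h5 => h2 (h5.subset ?_)⟩
    rintro w ⟨hw1, hw2⟩
    exact ⟨hw1, hr _ _ _ hw2 h3⟩
  · rintro x y ⟨h1, h2⟩
    have hI : TDx r {z | (r x z ∧ r z y) ∧ TDx r {w | r x w ∧ r w z}} := by
      refine C3 hrefl hr (hfac _) fun p hp => hp.2.subset ?_
      rintro w ⟨hw, hwp⟩
      exact ⟨hw.1.1, hwp⟩
    have hN' : ¬ TDx r {z | (r x z ∧ r z y) ∧ ¬ TDx r {w | r x w ∧ r w z}} := by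
      intro h3
      refine h2 ((hI.union h3).subset ?_)
      intro z hz
      by_cases h : TDx r {w | r x w ∧ r w z}
      · exact Or.inl ⟨hz, h⟩
      · exact Or.inr ⟨hz, h⟩
    have h3 : ∃ z ∈ {z | (r x z ∧ r z y) ∧ ¬ TDx r {w | r x w ∧ r w z}},
        ¬ TDx r {w | w ∈ {z | (r x z ∧ r z y) ∧ ¬ TDx r {w | r x w ∧ r w z}} ∧ r z w} := by
      by_contra h4
      push Not at h4
      exact hN' (C3' hrefl hr (hfac _) h4)
    obtain ⟨z, hz, hz'⟩ := h3
    refine ⟨z, ⟨hz.1.1, hz.2⟩, hz.1.2, fun h4 => hz' (h4.subset ?_)⟩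
    rintro w ⟨hw, hzw⟩
    exact ⟨hzw, hw.1.2⟩
  · have h1 : ∃ p ∈ (Set.univ : Set α), ¬ TDx r {x | x ∈ Set.univ ∧ r x p} := by
      by_contra h4
      push Not at h4
      exact hcon (C3 hrefl hr hA h4)
    obtain ⟨p, -, hp⟩ := h1
    have h2 : ∃ q ∈ {x | x ∈ Set.univ ∧ r x p},
        ¬ TDx r {x | x ∈ {x | x ∈ Set.univ ∧ r x p} ∧ r q x} := by
      by_contra h4
      push Not at h4
      exact hp (C3' hrefl hr (hfac _) h4)
    obtain ⟨q, hq, hq'⟩ := h2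
    refine ⟨q, p, hq.2, fun h3 => hq' (h3.subset ?_)⟩
    rintro w ⟨hw, hqw⟩
    exact ⟨hqw, hw.2⟩

end Pool.Agent.Lib.MP_fbb83b_lc
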