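import Mathlib
import Pool.Agent.Lib.MP_fbb83b_lc.TD2

set_option autoImplicit false

namespace Pool.Agent.Lib.MP_fbb83b_lc

/-- Empty, or decomposable of rank less than `β`. -/
def CE {α : Type} (r : α → α → Prop) (β : Ordinal.{0}) (B : Set α) : Prop :=
  B = ∅ ∨ ∃ γ, γ < β ∧ TD r γ B

theorem CE.union {α : Type} {r : α → α → Prop} {β : Ordinal.{0}} {A B : Set α}
    (hA : CE r β A) (hB : CE r β B) : CE r β (A ∪ B) := by
  rcases hA with rfl | ⟨γ, hγ, hA⟩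
  · rw [Set.empty_union]
    exact hB
  · rcases hB with rfl | ⟨δ, hδ, hB⟩
    · rw [Set.union_empty]
      exact Or.inr ⟨γ, hγ, hA⟩
    · exact Or.inr ⟨max γ δ, max_lt hγ hδ, (hA.mono (le_max_left _ _)).union
        (hB.mono (le_max_right _ _))⟩

theorem CE.biUnion {α ι : Type} {r : α → α → Prop} {β : Ordinal.{0}} {I : Set ι}
    (hI : I.Finite) (F : ι → Set α) (hF : ∀ i ∈ I, CE r β (F i)) :
    CE r β (⋃ i ∈ I, F i) := by
  induction I, hI using Set.Finite.induction_on with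
  | empty => exact Or.inl (by simp)
  | @insert a s _ _ ih =>
    rw [Set.biUnion_insert]
    exact (hF a (Set.mem_insert _ _)).union (ih fun i hi => hF i (Set.mem_insert_of_mem _ hi))

/-- If a label is constant, membership depends only on finitely many pieces. -/
theorem half_const {P X : Type} {r : P → P → Prop} {A1 : Set P} {π : P → Set P}
    (hcmp : WQ (fun x y => π x = π y ∨ Le r A1 π x y ∨ Le r A1 π y x) A1) {β : Ordinal.{0}}
    (hCC : ∀ x ∈ A1, CC r β {y | y ∈ A1 ∧ π y = π x}) {B : Set X} {m : X → P → Prop}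
    (hlow : ∀ x ∈ B, ∀ p ∈ A1, ∀ q ∈ A1, r q p → m x p → m x q)
    (hconst : ∀ x ∈ B, ∀ y ∈ B, ∀ p ∈ A1, (∀ q ∈ A1, π q = π p → m x q) →
      ∀ q ∈ A1, π q = π p → m y q) :
    ∃ A' : Set P, CE r β A' ∧ A' ⊆ A1 ∧ ∀ x ∈ B, ∀ y ∈ B, ∀ p ∈ A1, p ∉ A' → m x p → m y p := by
  rcases B.eq_empty_or_nonempty with rfl | ⟨x0, hx0⟩
  · exact ⟨∅, Or.inl rfl, Set.empty_subset _, fun x hx => absurd hx (Set.notMem_empty _)⟩
  let J : P → Prop := fun p => ∀ q ∈ A1, π q = π p → m x0 q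
  let N : Set P := {p | p ∈ A1 ∧ ¬ J p ∧ (∀ p' ∈ A1, Le r A1 π p' p → J p') ∧
    ¬ Triv r {y | y ∈ A1 ∧ π y = π p}}
  have hNA : N ⊆ A1 := fun p hp => hp.1
  have hfin : (π '' N).Finite := by
    refine finite_pieces (Le r A1 π) hcmp hNA fun x hx y hy _ hle => ?_
    exact hx.2.1 (hy.2.2.1 x hx.1 hle)
  have hCE : CE r β (⋃ i ∈ π '' N, N ∩ {y | π y = i}) := by
    refine CE.biUnion hfin _ fun i hi => ?_
    obtain ⟨p, hp, rfl⟩ := hi
    rcases hCC p hp.1 with h | ⟨γ, hγ, h⟩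
    · exact absurd h hp.2.2.2
    · exact Or.inr ⟨γ, hγ, h.subset fun y hy => ⟨hNA hy.1, hy.2⟩⟩
  have hN : (⋃ i ∈ π '' N, N ∩ {y | π y = i}) = N := by
    ext y
    simp only [Set.mem_iUnion]
    constructor
    · rintro ⟨i, _, hy, _⟩
      exact hy
    · intro hy
      exact ⟨π y, ⟨y, hy, rfl⟩, hy, rfl⟩
  rw [hN] at hCE
  refine ⟨N, hCE, hNA, fun x hx y hy p hp hpN hxp => ?_⟩
  by_cases hJ : J p
  · exact hconst x0 hx0 y hy p hp hJ p hp rfl
  · exfalso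
    by_cases h1 : ∀ p' ∈ A1, Le r A1 π p' p → J p'
    · have hT : Triv r {y | y ∈ A1 ∧ π y = π p} := by
        by_contra h2
        exact hpN ⟨hp, hJ, h1, h2⟩
      refine hJ (hconst x hx x0 hx0 p hp fun q hq hqp => ?_)
      exact hlow x hx p hp q hq (hT q ⟨hq, hqp⟩ p ⟨hp, rfl⟩) hxp
    · push Not at h1
      obtain ⟨p', hp', hle, hJ'⟩ := h1
      refine hJ' (hconst x hx x0 hx0 p' hp' fun q hq hqp => ?_)
      exact hlow x hx p hp q hq (hle q hq p hp hqp rfl) hxp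

theorem Good.cmp1 {P : Type} {r : P → P → Prop} {A : Set P} {π : P → Set P}
    (h : Good r A π) : WQ (fun x y => π x = π y ∨ Le r A π x y ∨ Le r A π y x) A :=
  WQ.mono h (Set.Subset.refl _) fun _ _ _ _ h1 => h1.imp id Or.inl

theorem Good.cmp2 {P : Type} {r : P → P → Prop} {A : Set P} {π : P → Set P}
    (h : Good (fun x y => r y x) A π) :
    WQ (fun x y => π x = π y ∨ Le r A π x y ∨ Le r A π y x) A :=
  WQ.mono h (Set.Subset.refl _) fun _ _ _ _ h1 => h1.imp id fun h2 =>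
    Or.inr fun a ha b hb hax hby => h2 b hb a ha hby hax

/-- The statement that completions of sets of rank at most `β` have rank at most `β`. -/
def ComplStmt (β : Ordinal.{0}) : Prop :=
  ∀ (P : Type) (r : P → P → Prop), (∀ x, r x x) → (∀ x y z, r x y → r y z → r x z) →
  ∀ A : Set P, TD r β A → ∀ (X : Type) (t : X → X → Prop), (∀ x, t x x) →
  (∀ x y z, t x y → t y z → t x z) → ∀ (S : Set X) (m : X → P → Prop), FAC t S →
  (∀ x ∈ S, ∀ y ∈ S, t x y ↔ ∀ p ∈ A, m x p → m y p) →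
  (∀ x ∈ S, ∀ p ∈ A, ∀ q ∈ A, r q p → m x p → m x q) → TD t β S

section

variable {P X : Type} {r : P → P → Prop} {t : X → X → Prop} {A A1 A2 : Set P}
  {π1 π2 : P → Set P} {β : Ordinal.{0}} {S : Set X} {m : X → P → Prop}

theorem const_label (hrefl : ∀ x, r x x) (hr : ∀ x y z, r x y → r y z → r x z)
    (htrefl : ∀ x, t x x) (ht : ∀ x y z, t x y → t y z → t x z)
    (hA : A = A1 ∪ A2) (hg1 : Good r A1 π1) (hg2 : Good (fun x y => r y x) A2 π2)
    (h1 : ∀ x ∈ A1, CC r β {y | y ∈ A1 ∧ π1 y = π1 x})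
    (h2 : ∀ x ∈ A2, CC r β {y | y ∈ A2 ∧ π2 y = π2 x})
    (IH : ∀ γ < β, ComplStmt γ) (hS : FAC t S)
    (hemb : ∀ x ∈ S, ∀ y ∈ S, t x y ↔ ∀ p ∈ A, m x p → m y p)
    (hlow : ∀ x ∈ S, ∀ p ∈ A, ∀ q ∈ A, r q p → m x p → m x q)
    {B : Set X} (hB : B ⊆ S)
    (hc1 : ∀ x ∈ B, ∀ y ∈ B, ∀ p ∈ A1, (∀ q ∈ A1, π1 q = π1 p → m x q) →
      ∀ q ∈ A1, π1 q = π1 p → m y q)
    (hc2 : ∀ x ∈ B, ∀ y ∈ B, ∀ p ∈ A2, (∀ q ∈ A2, π2 q = π2 p → m x q) →
      ∀ q ∈ A2, π2 q = π2 p → m y q) : CC t β B := by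
  have s1 : A1 ⊆ A := by rw [hA]; exact Set.subset_union_left
  have s2 : A2 ⊆ A := by rw [hA]; exact Set.subset_union_right
  obtain ⟨A1', hCE1, hA1', hm1⟩ := half_const (π := π1)
    hg1.cmp1 h1
    (fun x hx p hp q hq => hlow x (hB hx) p (s1 hp) q (s1 hq)) hc1
  obtain ⟨A2', hCE2, hA2', hm2⟩ := half_const (π := π2)
    hg2.cmp2 h2
    (fun x hx p hp q hq => hlow x (hB hx) p (s2 hp) q (s2 hq)) hc2
  have hA' : A1' ∪ A2' ⊆ A := Set.union_subset (hA1'.trans s1) (hA2'.trans s2)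
  have hemb' : ∀ x ∈ B, ∀ y ∈ B, t x y ↔ ∀ p ∈ A1' ∪ A2', m x p → m y p := by
    intro x hx y hy
    rw [hemb x (hB hx) y (hB hy)]
    constructor
    · exact fun h p hp => h p (hA' hp)
    · intro h p hp hxp
      rw [hA] at hp
      rcases hp with hp | hp
      · by_cases hp' : p ∈ A1'
        · exact h p (Or.inl hp') hxp
        · exact hm1 x hx y hy p hp hp' hxp
      · by_cases hp' : p ∈ A2'
        · exact h p (Or.inr hp') hxp
        · exact hm2 x hx y hy p hp hp' hxp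
  rcases hCE1.union hCE2 with h | ⟨γ, hγ, h⟩
  · left
    intro x hx y hy
    rw [hemb' x hx y hy, h]
    exact fun p hp => absurd hp (Set.notMem_empty _)
  · right
    exact ⟨γ, hγ, IH γ hγ P r hrefl hr _ h X t htrefl ht B m (hS.mono hB) hemb'
      fun x hx p hp q hq => hlow x (hB hx) p (hA' hp) q (hA' hq)⟩

end

end Pool.Agent.Lib.MP_fbb83b_lc
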