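import Mathlib
import Pool.Agent.Lib.MP_fbb83b_lc.Compl

set_option autoImplicit false

namespace Pool.Agent.Lib.MP_fbb83b_lc

/-- The label `x ↦ {pieces contained in x}`. -/
def JL {P X : Type} (m : X → P → Prop) (A : Set P) (π : P → Set P) (x y : X) : Prop :=
  ∀ p ∈ A, (∀ q ∈ A, π q = π p → m x q) → ∀ q ∈ A, π q = π p → m y q

theorem JL.trans {P X : Type} {m : X → P → Prop} {A : Set P} {π : P → Set P} {x y z : X}
    (h1 : JL m A π x y) (h2 : JL m A π y z) : JL m A π x z :=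
  fun p hp h => h2 p hp (h1 p hp h)

section

variable {P X : Type} {r : P → P → Prop} {t : X → X → Prop} {A : Set P}
  {π : P → Set P} {S : Set X} {m : X → P → Prop}

theorem JL_WQ (ht : ∀ x y z, t x y → t y z → t x z) (hS : FAC t S)
    (hemb : ∀ x ∈ S, ∀ y ∈ S, t x y → ∀ p ∈ A, m x p → m y p)
    (hlow : ∀ x ∈ S, ∀ p ∈ A, ∀ q ∈ A, r q p → m x p → m x q)
    (hg : Good r A π) : WQ (JL m A π) S := by
  refine WQ_label ht hS (fun x p => ∀ q ∈ A, π q = π p → m x q) ?_ ?_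
  · exact fun x hx y hy hxy p _ h q hq hqp => hemb x hx y hy hxy q hq (h q hq hqp)
  · refine WQ.mono hg (Set.Subset.refl _) fun p hp p' hp' h x hx hxp' q hq hqp => ?_
    rcases h with h | h
    · exact hxp' q hq (hqp.trans h)
    · exact hlow x hx p' hp' q hq (h q hq p' hp' hqp rfl) (hxp' p' hp' rfl)

theorem JL_WQ_dual (ht : ∀ x y z, t x y → t y z → t x z) (hS : FAC t S)
    (hemb : ∀ x ∈ S, ∀ y ∈ S, t x y → ∀ p ∈ A, m x p → m y p)
    (hlow : ∀ x ∈ S, ∀ p ∈ A, ∀ q ∈ A, r q p → m x p → m x q)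
    (hg : Good (fun x y => r y x) A π) : WQ (fun x y => JL m A π y x) S := by
  have h1 : WQ (fun x y => ∀ p ∈ A, ¬ (∀ q ∈ A, π q = π p → m x q) →
      ¬ (∀ q ∈ A, π q = π p → m y q)) S := by
    refine WQ_label (t := fun x y => t y x) (fun x y z h1 h2 => ht _ _ _ h2 h1) hS.flip
      (fun x p => ¬ ∀ q ∈ A, π q = π p → m x q) ?_ ?_
    · exact fun x hx y hy hxy p _ h h' =>
        h fun q hq hqp => hemb y hy x hx hxy q hq (h' q hq hqp)
    · refine WQ.mono hg (Set.Subset.refl _) fun p hp p' hp' h x hx hxp' h' => ?_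
      apply hxp'
      intro q hq hqp
      rcases h with h | h
      · exact h' q hq (hqp.trans h.symm)
      · exact hlow x hx p hp q hq (h p hp q hq rfl hqp) (h' p hp rfl)
  refine h1.mono (Set.Subset.refl _) fun x _ y _ h p hp h' => ?_
  by_contra h''
  exact h p hp h'' h'

end

/-- Mixing of a well-quasi-ordered and of a dually well-quasi-ordered label. -/
theorem mix {X : Type} {t : X → X → Prop} (htrefl : ∀ x, t x x)
    (ht : ∀ x y z, t x y → t y z → t x z) {S : Set X} (hS : FAC t S)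
    (s1 s2 : X → X → Prop)
    (h1t : ∀ x ∈ S, ∀ y ∈ S, ∀ z ∈ S, s1 x y → s1 y z → s1 x z)
    (h1r : ∀ x ∈ S, ∀ y ∈ S, t x y → s1 x y) (h1w : WQ s1 S)
    (h2t : ∀ x ∈ S, ∀ y ∈ S, ∀ z ∈ S, s2 x y → s2 y z → s2 x z)
    (h2r : ∀ x ∈ S, ∀ y ∈ S, t x y → s2 x y) (h2w : WQ (fun x y => s2 y x) S)
    {β : Ordinal.{0}} (hC : ∀ B ⊆ S, Triv s1 B → Triv s2 B → CC t β B) : TD t β S := by
  classical
  have step1 : ∀ B ⊆ S, Triv s1 B → Half (fun x y => t y x) (CC t β) B := by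
    intro B hB hB1
    obtain ⟨π, h1, h2⟩ := thmG_label (r := fun x y => t y x) htrefl
      (fun x y z h1 h2 => ht _ _ _ h2 h1) (hS.mono hB).flip (fun x y => s2 y x)
      (fun x hx y hy z hz h1 h2 => h2t z (hB hz) y (hB hy) x (hB hx) h2 h1)
      (fun x hx y hy h => h2r y (hB hy) x (hB hx) h)
      (h2w.mono hB fun _ _ _ _ h => h)
      (fun D hD hD2 => CC.gp (r := fun x y => t y x) (β := β) htrefl
        (fun x y z h1 h2 => ht _ _ _ h2 h1)
        (CC.flip (r := t) (hC D (hD.trans hB) (hB1.subset _ _ hD) fun x hx y hy =>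
          hD2 y hy x hx)))
    refine ⟨π, h1, fun x hx => hC _ (fun y hy => hB hy.1)
      (fun y hy z hz => hB1 y hy.1 z hz.1) fun y hy z hz => ?_⟩
    exact h2 z hz.1 y hy.1 (hz.2.trans hy.2.symm)
  obtain ⟨π, hg, hc⟩ := thmG_label (r := t) htrefl ht hS s1 h1t h1r h1w
    (fun B hB hB1 => (TD.of_half_dual (step1 B hB hB1)).gp htrefl ht)
  let c : X → Set X := fun x => {y | y ∈ S ∧ π y = π x}
  have hcS : ∀ x, c x ⊆ S := fun x y hy => hy.1
  have hc1 : ∀ x, Triv s1 (c x) := fun x y hy z hz => hc y hy.1 z hz.1 (hy.2.trans hz.2.symm)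
  have hcc : ∀ x, ∀ y ∈ c x, c y = c x := by
    intro x y hy
    ext z
    exact ⟨fun hz => ⟨hz.1, hz.2.trans hy.2⟩, fun hz => ⟨hz.1, hz.2.trans hy.2.symm⟩⟩
  have key : ∀ B : Set X, ∃ σ : X → Set X, B ⊆ S → Triv s1 B →
      (Good (fun x y => t y x) B σ ∧ ∀ x ∈ B, CC t β {y | y ∈ B ∧ σ y = σ x}) := by
    intro B
    by_cases h : B ⊆ S ∧ Triv s1 B
    · obtain ⟨σ, h1, h2⟩ := step1 B h.1 h.2
      exact ⟨σ, fun _ _ => ⟨h1, h2⟩⟩
    · exact ⟨fun _ => ∅, fun h1 h2 => absurd ⟨h1, h2⟩ h⟩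
  choose G hG using key
  let Z : Set X := {x | x ∈ S ∧ Triv s2 (c x)}
  let Z' : Set X := {x | x ∈ S ∧ ¬ Triv s2 (c x)}
  have hZ : S = Z ∪ Z' := by
    ext x
    constructor
    · intro hx
      by_cases h : Triv s2 (c x)
      · exact Or.inl ⟨hx, h⟩
      · exact Or.inr ⟨hx, h⟩
    · rintro (hx | hx)
      · exact hx.1
      · exact hx.1
  rw [TD_iff]
  refine ⟨Z, Z', hZ, ⟨π, hg.mono fun x hx => hx.1, fun x hx => ?_⟩,
    Half.of_index (π := fun x => (π x, G (c x) x)) ?_ ?_⟩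
  · refine CC.subset _ _ (hC (c x) (hcS x) (hc1 x) hx.2) fun y hy => ⟨hy.1.1, hy.2⟩
  · intro f hf
    obtain ⟨g, hg', h1⟩ := hg.subseq ht fun n => (hf n).1
    rcases h1 with h1 | h1
    · have hin : ∀ n, f (g n) ∈ c (f (g 0)) := fun n => ⟨(hf _).1, h1 n 0⟩
      have hc0 : ∀ n, c (f (g n)) = c (f (g 0)) := fun n => hcc _ _ (hin n)
      obtain ⟨m, n, hmn, h2⟩ := (hG (c (f (g 0))) (hcS _) (hc1 _)).1 (fun n => f (g n)) hin
      refine ⟨g m, g n, hg' hmn, ?_⟩
      rcases h2 with h2 | h2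
      · left
        refine Prod.ext (h1 m n) ?_
        simp only
        rw [hc0 m, hc0 n]
        exact h2
      · right
        have key2 : ∀ k, ∀ a ∈ Z', (π a, G (c a) a) = (π (f (g k)), G (c (f (g k))) (f (g k))) →
            a ∈ c (f (g 0)) ∧ G (c (f (g 0))) a = G (c (f (g 0))) (f (g k)) := by
          intro k a ha hak
          have h3 := (Prod.ext_iff.mp hak).1
          have h4 := (Prod.ext_iff.mp hak).2
          simp only at h3 h4
          have hac : a ∈ c (f (g 0)) := ⟨ha.1, h3.trans (h1 k 0)⟩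
          rw [hcc _ _ hac, hc0 k] at h4
          exact ⟨hac, h4⟩
        intro a ha b hb ha1 hb1
        obtain ⟨ha2, ha3⟩ := key2 m a ha ha1
        obtain ⟨hb2, hb3⟩ := key2 n b hb hb1
        exact h2 a ha2 b hb2 ha3 hb3
    · exfalso
      have h3 : ∀ n, ∃ x ∈ c (f (g n)), ∃ y ∈ c (f (g n)), ¬ s2 x y := by
        intro n
        have h8 := (hf (g n)).2
        simp only [Triv] at h8
        push Not at h8
        exact h8
      choose x hx y hy hxy using h3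
      obtain ⟨m, n, hmn, h8⟩ := h2w x fun n => (hx n).1
      apply hxy n
      have h9 : t (x m) (y n) := (h1 m n hmn).2 (x m) (hx m).1 (y n) (hy n).1 (hx m).2 (hy n).2
      exact h2t _ (hx n).1 _ (hx m).1 _ (hy n).1 h8 (h2r _ (hx m).1 _ (hy n).1 h9)
  · intro x hx
    refine CC.subset _ _ ((hG (c x) (hcS x) (hc1 x)).2 x ⟨hx.1, rfl⟩) fun y hy => ?_
    have h3 := (Prod.ext_iff.mp hy.2).1
    have h4 := (Prod.ext_iff.mp hy.2).2
    simp only at h3 h4
    have hyc : y ∈ c x := ⟨hy.1.1, h3⟩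
    rw [hcc x y hyc] at h4
    exact ⟨hyc, h4⟩

/-- Completions do not raise the rank. -/
theorem compl_all (β : Ordinal.{0}) : ComplStmt β := by
  induction β using WellFoundedLT.induction with
  | _ β IH =>
    intro P r hrefl hr A hTD X t htrefl ht S m hS hemb hlow
    rw [TD_iff] at hTD
    obtain ⟨A1, A2, hA, ⟨π1, hg1, h1⟩, ⟨π2, hg2, h2⟩⟩ := hTD
    have s1 : A1 ⊆ A := by rw [hA]; exact Set.subset_union_left
    have s2 : A2 ⊆ A := by rw [hA]; exact Set.subset_union_right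
    refine mix htrefl ht hS (JL m A1 π1) (JL m A2 π2) (fun x _ y _ z _ => JL.trans)
      (fun x hx y hy hxy p _ h q hq hqp => (hemb x hx y hy).mp hxy q (s1 hq) (h q hq hqp))
      (JL_WQ ht hS (fun x hx y hy hxy p hp => (hemb x hx y hy).mp hxy p (s1 hp))
        (fun x hx p hp q hq => hlow x hx p (s1 hp) q (s1 hq)) hg1)
      (fun x _ y _ z _ => JL.trans)
      (fun x hx y hy hxy p _ h q hq hqp => (hemb x hx y hy).mp hxy q (s2 hq) (h q hq hqp))
      (JL_WQ_dual ht hS (fun x hx y hy hxy p hp => (hemb x hx y hy).mp hxy p (s2 hp))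
        (fun x hx p hp q hq => hlow x hx p (s2 hp) q (s2 hq)) hg2) fun B hB hB1 hB2 => ?_
    exact const_label hrefl hr htrefl ht hA hg1 hg2 h1 h2 IH hS hemb hlow hB
      (fun x hx y hy => hB1 x hx y hy) (fun x hx y hy => hB2 x hx y hy)

/-- Completions of a set with a good decomposition have a good decomposition. -/
theorem half_compl {P X : Type} {r : P → P → Prop} (hrefl : ∀ x, r x x)
    (hr : ∀ x y z, r x y → r y z → r x z) {A : Set P} {β : Ordinal.{0}}
    (hA : Half r (CC r β) A) {t : X → X → Prop} (htrefl : ∀ x, t x x)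
    (ht : ∀ x y z, t x y → t y z → t x z) {S : Set X} {m : X → P → Prop} (hS : FAC t S)
    (hemb : ∀ x ∈ S, ∀ y ∈ S, t x y ↔ ∀ p ∈ A, m x p → m y p)
    (hlow : ∀ x ∈ S, ∀ p ∈ A, ∀ q ∈ A, r q p → m x p → m x q) : Half t (CC t β) S := by
  obtain ⟨π1, hg1, h1⟩ := hA
  have hcl : ∀ B ⊆ S, (∀ x ∈ B, ∀ y ∈ B, JL m A π1 x y) → CC t β B := by
    intro B hB hB1
    refine const_label (A1 := A) (A2 := ∅) (π1 := π1) (π2 := π1) hrefl hr htrefl ht
      (Set.union_empty A).symm hg1 (fun f hf => absurd (hf 0) (Set.notMem_empty _)) h1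
      (fun x hx => absurd hx (Set.notMem_empty _)) (fun γ _ => compl_all γ) hS hemb hlow hB
      (fun x hx y hy => hB1 x hx y hy) (fun x _ y _ p hp => absurd hp (Set.notMem_empty _))
  obtain ⟨σ, h3, h4⟩ := thmG_label (r := t) htrefl ht hS (JL m A π1)
    (fun x _ y _ z _ => JL.trans)
    (fun x hx y hy hxy p _ h q hq hqp => (hemb x hx y hy).mp hxy q hq (h q hq hqp))
    (JL_WQ ht hS (fun x hx y hy hxy p hp => (hemb x hx y hy).mp hxy p hp) hlow hg1)
    (fun B hB hB1 => (hcl B hB hB1).gp htrefl ht)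
  exact ⟨σ, h3, fun x _ => hcl _ (fun y hy => hy.1) fun y hy z hz =>
    h4 y hy.1 z hz.1 (hy.2.trans hz.2.symm)⟩

end Pool.Agent.Lib.MP_fbb83b_lc
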