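import Mathlib
import Pool.Agent.Lib.MP_fbb83b_lc.Compl2

set_option autoImplicit false

namespace Pool.Agent.Lib.MP_fbb83b_lc

/-- Lower sets. -/
def Low {α : Type} (r : α → α → Prop) (E : Set α) : Prop := ∀ x y, r y x → x ∈ E → y ∈ E

/-- `r` is resolved by a well-quasi-order: the lower sets of `r` are the image of the lower sets
of a well-quasi-order under a map depending on finitely many coordinates. -/
def RS {P : Type} (r : P → P → Prop) : Prop :=
  ∃ (W : Type) (le : W → W → Prop), (∀ x, le x x) ∧ (∀ x y z, le x y → le y z → le x z) ∧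
    WQ le Set.univ ∧ ∃ g : Set W → Set P, (∀ D, Low le D → Low r (g D)) ∧
      (∀ E, Low r E → ∃ D, Low le D ∧ g D = E) ∧
      ∀ x : P, ∃ F : Set W, F.Finite ∧ ∀ D D', Low le D → Low le D' →
        (∀ w ∈ F, w ∈ D ↔ w ∈ D') → (x ∈ g D ↔ x ∈ g D')

/-- Normalized version. -/
def RSn {P : Type} (r : P → P → Prop) : Prop :=
  ∃ (W : Type) (le : W → W → Prop), (∀ x, le x x) ∧ (∀ x y z, le x y → le y z → le x z) ∧
    WQ le Set.univ ∧ ∃ g : Set W → Set P, (∀ D, Low le D → Low r (g D)) ∧
      (∀ E, Low r E → ∃ D, Low le D ∧ g D = E) ∧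
      (∀ x : P, ∃ F : Set W, F.Finite ∧ ∀ D D', Low le D → Low le D' →
        (∀ w ∈ F, w ∈ D ↔ w ∈ D') → (x ∈ g D ↔ x ∈ g D')) ∧
      g ∅ = ∅ ∧ g Set.univ = Set.univ

/-- The order with a bottom and a top added. -/
def leB {W : Type} (le : W → W → Prop) : W ⊕ Bool → W ⊕ Bool → Prop
  | .inl a, .inl b => le a b
  | .inl _, .inr b => b = true
  | .inr b, .inl _ => b = false
  | .inr b, .inr b' => b = false ∨ b' = true

theorem RS.normalize {P : Type} {r : P → P → Prop} (h : RS r) : RSn r := by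
  obtain ⟨W, le, h1, h2, h3, g, h4, h5, h6⟩ := h
  refine ⟨W ⊕ Bool, leB le, ?_, ?_, ?_,
    fun D => {x | Sum.inr true ∈ D ∨ (Sum.inr false ∈ D ∧ x ∈ g {w | Sum.inl w ∈ D})},
    ?_, ?_, ?_, ?_, ?_⟩
  · rintro (a | b)
    · exact h1 a
    · cases b
      · exact Or.inl rfl
      · exact Or.inr rfl
  · rintro (a | a) (b | b) (c | c) hab hbc
    · exact h2 a b c hab hbc
    · exact hbc
    · simp only [leB] at hab hbc
      rw [hab] at hbc
      exact absurd hbc Bool.true_eq_false.mp
    · simp only [leB] at hab hbc ⊢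
      rcases hbc with hbc | hbc
      · rw [hab] at hbc
        exact absurd hbc Bool.true_eq_false.mp
      · exact hbc
    · exact hab
    · simp only [leB] at hab hbc ⊢
      exact Or.inl hab
    · simp only [leB] at hab hbc ⊢
      rcases hab with hab | hab
      · exact hab
      · rw [hab] at hbc
        exact absurd hbc Bool.true_eq_false.mp
    · simp only [leB] at hab hbc ⊢
      rcases hab with hab | hab
      · exact Or.inl hab
      · rcases hbc with hbc | hbc
        · rw [hab] at hbc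
          exact absurd hbc Bool.true_eq_false.mp
        · exact Or.inr hbc
  · intro f _
    obtain ⟨k, hk, hT | hT⟩ := subseq_or f (fun w => ∃ a, w = Sum.inl a)
    · choose a ha using hT
      obtain ⟨m, n, hmn, h7⟩ := h3 a fun _ => Set.mem_univ _
      refine ⟨k m, k n, hk hmn, ?_⟩
      rw [ha m, ha n]
      exact h7
    · have hT' : ∀ n, ∃ b : Bool, f (k n) = Sum.inr b := by
        intro n
        rcases h : f (k n) with a | b
        · exact absurd ⟨a, h⟩ (hT n)
        · exact ⟨b, rfl⟩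
      choose b hb using hT'
      cases hb0 : b 0
      · refine ⟨k 0, k 1, hk Nat.zero_lt_one, ?_⟩
        rw [hb 0, hb 1, hb0]
        exact Or.inl rfl
      · cases hb1 : b 1
        · refine ⟨k 1, k 2, hk (by omega), ?_⟩
          rw [hb 1, hb 2, hb1]
          exact Or.inl rfl
        · refine ⟨k 0, k 1, hk Nat.zero_lt_one, ?_⟩
          rw [hb 0, hb 1, hb1]
          exact Or.inr rfl
  · intro D hD x y hyx hx
    have hL : Low le {w | Sum.inl w ∈ D} := fun a b hba ha => hD (Sum.inl a) (Sum.inl b) hba ha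
    rcases hx with hx | ⟨hx1, hx2⟩
    · exact Or.inl hx
    · exact Or.inr ⟨hx1, h4 _ hL x y hyx hx2⟩
  · intro E hE
    obtain ⟨D, hD, hDE⟩ := h5 E hE
    refine ⟨{w | (∃ a ∈ D, w = Sum.inl a) ∨ w = Sum.inr false}, ?_, ?_⟩
    · rintro x y hyx (⟨a, ha, rfl⟩ | rfl)
      · rcases y with y | b
        · exact Or.inl ⟨y, hD a y hyx ha, rfl⟩
        · right
          have h7 : b = false := hyx
          rw [h7]
      · rcases y with y | b
        · exact absurd hyx Bool.false_ne_true
        · right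
          rcases hyx with h7 | h7
          · rw [h7]
          · exact absurd h7 Bool.false_ne_true
    · have e1 : {w | Sum.inl w ∈ {w : W ⊕ Bool | (∃ a ∈ D, w = Sum.inl a) ∨ w = Sum.inr false}}
          = D := by
        ext w
        simp only [Set.mem_ofPred_eq, Sum.inl.injEq, reduceCtorEq, or_false]
        constructor
        · rintro ⟨a, ha, rfl⟩
          exact ha
        · intro h
          exact ⟨w, h, rfl⟩
      ext x
      constructor
      · rintro (hx | ⟨_, hx2⟩)
        · rcases hx with ⟨a, _, ha⟩ | hx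
          · exact absurd ha (by simp)
          · exact absurd hx (by simp)
        · rw [e1, hDE] at hx2
          exact hx2
      · intro hx
        right
        refine ⟨Or.inr rfl, ?_⟩
        rw [e1, hDE]
        exact hx
  · intro x
    obtain ⟨F, hF, hF2⟩ := h6 x
    refine ⟨Sum.inl '' F ∪ {Sum.inr true, Sum.inr false}, (hF.image _).union (Set.toFinite _),
      fun D D' hD hD' hDD => ?_⟩
    have e1 : Sum.inr true ∈ D ↔ Sum.inr true ∈ D' := hDD _ (Or.inr (Or.inl rfl))
    have e2 : Sum.inr false ∈ D ↔ Sum.inr false ∈ D' := hDD _ (Or.inr (Or.inr rfl))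
    have e3 := hF2 {w | Sum.inl w ∈ D} {w | Sum.inl w ∈ D'}
      (fun a b hba ha => hD (Sum.inl a) (Sum.inl b) hba ha)
      (fun a b hba ha => hD' (Sum.inl a) (Sum.inl b) hba ha)
      (fun w hw => hDD _ (Or.inl ⟨w, hw, rfl⟩))
    exact or_congr e1 (and_congr e2 e3)
  · ext x
    simp
  · ext x
    simp

theorem RS.flip {P : Type} {r : P → P → Prop} (h : RS r) : RS (fun x y => r y x) := by
  obtain ⟨W, le, h1, h2, h3, g, h4, h5, h6⟩ := h
  refine ⟨W, le, h1, h2, h3, fun D => (g D)ᶜ, ?_, ?_, ?_⟩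
  · exact fun D hD x y hyx hx hy => hx (h4 D hD y x hyx hy)
  · intro E hE
    obtain ⟨D, hD, hDE⟩ := h5 Eᶜ fun x y hyx hx hy => hx (hE y x hyx hy)
    exact ⟨D, hD, by simp only [hDE, compl_compl]⟩
  · intro x
    obtain ⟨F, hF, hF2⟩ := h6 x
    exact ⟨F, hF, fun D D' hD hD' hDD => not_congr (hF2 D D' hD hD' hDD)⟩

theorem RS.of_WQ {P : Type} {r : P → P → Prop} (hrefl : ∀ x, r x x)
    (hr : ∀ x y z, r x y → r y z → r x z) (h : WQ r Set.univ) : RS r :=
  ⟨P, r, hrefl, hr, h, fun D => D, fun _ hD => hD, fun E hE => ⟨E, hE, rfl⟩,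
    fun x => ⟨{x}, Set.finite_singleton x, fun _ _ _ _ h => h x rfl⟩⟩

/-- Comparability inside one block. -/
inductive SB {ι : Type} {V : ι → Type} (le : ∀ j, V j → V j → Prop) :
    (Σ j, V j) → (Σ j, V j) → Prop
  | mk (j : ι) (w w' : V j) (h : le j w w') : SB le ⟨j, w⟩ ⟨j, w'⟩

/-- The order resolving `r`. -/
def leW {P ι : Type} (r : P → P → Prop) (π : P → ι) {V : ι → Type}
    (le : ∀ j, V j → V j → Prop) : (Σ j, V j) ⊕ P → (Σ j, V j) ⊕ P → Prop
  | .inl a, .inl b => SB le a b ∨ ∀ x y, π x = a.1 → π y = b.1 → r x y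
  | .inl a, .inr y => ∀ x, π x = a.1 → r x y
  | .inr _, .inl _ => False
  | .inr x, .inr y => ∀ z, (∀ a, π a = π z → r a x) → ∀ a, π a = π z → r a y

theorem RS_of_good {P ι : Type} {r : P → P → Prop} (hrefl : ∀ x, r x x)
    (hr : ∀ x y z, r x y → r y z → r x z) (hF : FAC r Set.univ) {π : P → ι}
    (hπ : Function.Surjective π) (hg : Good r Set.univ π)
    (hRS : ∀ j, RS (fun x y => ∀ z, π z = j → r z x → r z y)) : RS r := by
  classical
  choose V le l1 l2 l3 g g1 g2 g3 g4 g5 using fun j => (hRS j).normalize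
  have aux : ∀ (b : Σ j, V j) (i : ι), b.1 = i → ∃ w : V i, b = ⟨i, w⟩ := by
    rintro ⟨j, w⟩ i rfl
    exact ⟨w, rfl⟩
  have key : ∀ a b : Σ j, V j, SB le a b → a.1 = b.1 := by
    rintro _ _ ⟨j, w, w', h⟩
    rfl
  have hsec : ∀ D : Set ((Σ j, V j) ⊕ P), Low (leW r π le) D → ∀ j,
      Low (le j) {w | Sum.inl ⟨j, w⟩ ∈ D} := fun D hD j a b hba ha =>
    hD (Sum.inl ⟨j, a⟩) (Sum.inl ⟨j, b⟩) (Or.inl (SB.mk j b a hba)) ha
  refine ⟨(Σ j, V j) ⊕ P, leW r π le, ?_, ?_, ?_,
    fun D => {x | Sum.inr x ∈ D ∧ ∀ j, (∃ z, π z = j ∧ r z x) →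
      x ∈ g j {w | Sum.inl ⟨j, w⟩ ∈ D}}, ?_, ?_, ?_⟩
  · rintro (⟨j, w⟩ | x)
    · exact Or.inl (SB.mk j w w (l1 j w))
    · exact fun z h => h
  · rintro (a | x) (b | y) (c | z) hab hbc
    · rcases hab with hab | hab
      · rcases hbc with hbc | hbc
        · left
          obtain ⟨j, w, w', h⟩ := hab
          cases hbc with
          | mk _ _ w'' h' => exact SB.mk j w w'' (l2 j _ _ _ h h')
        · right
          intro x y hx hy
          exact hbc x y (hx.trans (key _ _ hab)) hy
      · rcases hbc with hbc | hbc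
        · right
          intro x y hx hy
          exact hab x y hx (hy.trans (key _ _ hbc).symm)
        · right
          intro x y hx hy
          obtain ⟨z, hz⟩ := hπ b.1
          exact hr _ _ _ (hab x z hx hz) (hbc z y hz hy)
    · intro x hx
      rcases hab with hab | hab
      · exact hbc x (hx.trans (key _ _ hab))
      · obtain ⟨z', hz'⟩ := hπ b.1
        exact hr _ _ _ (hab x z' hx hz') (hbc z' hz')
    · exact absurd hbc id
    · intro x hx
      obtain ⟨z', hz'⟩ := hπ a.1
      exact hbc z' (fun a' ha' => hab a' (ha'.trans hz')) x (hx.trans hz'.symm)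
    · exact absurd hab id
    · exact absurd hab id
    · exact absurd hbc id
    · exact fun z' h => hbc z' (hab z' h)
  · intro f _
    obtain ⟨k, hk, hT | hT⟩ := subseq_or f (fun w => ∃ a, w = Sum.inl a)
    · choose a ha using hT
      choose z hz using fun n => hπ (a n).1
      obtain ⟨k', hk', h1 | h1⟩ := hg.subseq hr (f := z) fun _ => Set.mem_univ _
      · have h2 : ∀ n, ∃ w : V (π (z (k' 0))), a (k' n) = ⟨π (z (k' 0)), w⟩ := by
          intro n
          have h3 : (a (k' n)).1 = π (z (k' 0)) := by rw [← hz, h1 n 0]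
          exact aux _ _ h3
        choose w hw using h2
        obtain ⟨m, n, hmn, h3⟩ := l3 (π (z (k' 0))) w fun _ => Set.mem_univ _
        refine ⟨k (k' m), k (k' n), hk (hk' hmn), ?_⟩
        rw [ha, ha, hw, hw]
        exact Or.inl (SB.mk _ _ _ h3)
      · refine ⟨k (k' 0), k (k' 1), hk (hk' Nat.zero_lt_one), ?_⟩
        rw [ha, ha]
        right
        intro x y hx hy
        rw [← hz] at hx hy
        exact (h1 0 1 Nat.zero_lt_one).2 x (Set.mem_univ _) y (Set.mem_univ _) hx hy
    · have hT' : ∀ n, ∃ b : P, f (k n) = Sum.inr b := by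
        intro n
        rcases h : f (k n) with a | b
        · exact absurd ⟨a, h⟩ (hT n)
        · exact ⟨b, rfl⟩
      choose b hb using hT'
      obtain ⟨m, n, hmn, h1⟩ := WQ_label (t := r) hr hF (A := Set.univ)
        (fun x p => ∀ a, π a = π p → r a x)
        (fun x _ y _ hxy p _ h a ha => hr _ _ _ (h a ha) hxy)
        (WQ.mono hg (Set.Subset.refl _) fun p _ p' _ h x _ hxp' a ha => by
          rcases h with h | h
          · exact hxp' a (ha.trans h)
          · exact hr _ _ _ (h a (Set.mem_univ _) p' (Set.mem_univ _) ha rfl) (hxp' p' rfl))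
        b fun _ => Set.mem_univ _
      refine ⟨k m, k n, hk hmn, ?_⟩
      rw [hb, hb]
      exact fun z h => h1 z (Set.mem_univ _) h
  · intro D hD x y hyx hx
    refine ⟨hD (Sum.inr x) (Sum.inr y) (fun z h a ha => hr _ _ _ (h a ha) hyx) hx.1,
      fun j hj => ?_⟩
    obtain ⟨z, hz, hzy⟩ := hj
    exact g1 j _ (hsec D hD j) x y (fun z' _ h => hr _ _ _ h hyx)
      (hx.2 j ⟨z, hz, hr _ _ _ hzy hyx⟩)
  · intro E hE
    have h1 : ∀ j, ∃ D, Low (le j) D ∧ g j D = {x | ∀ z, π z = j → r z x → z ∈ E} := by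
      intro j
      refine g2 j _ fun x y hyx hx z hz hzy => ?_
      exact hx z hz (hyx z hz hzy)
    choose D0 hD0 hD0g using h1
    let full : ι → Prop := fun j => ∀ z, π z = j → z ∈ E
    let cond : ι → Prop := fun j => ∀ i, (∀ a b, π a = i → π b = j → r a b) →
      ∀ a, π a = i → a ∈ E
    let Dh : ∀ j, Set (V j) := fun j => if full j then Set.univ else if cond j then D0 j else ∅
    have hDh1 : ∀ j, full j → Dh j = Set.univ := fun j h => if_pos h
    have hDh2 : ∀ j, ¬ full j → cond j → Dh j = D0 j := fun j h h' => by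
      simp only [Dh, if_neg h, if_pos h']
    have hDh3 : ∀ j, ¬ full j → ¬ cond j → Dh j = ∅ := fun j h h' => by
      simp only [Dh, if_neg h, if_neg h']
    have hDhL : ∀ j, Low (le j) (Dh j) := by
      intro j
      by_cases h : full j
      · rw [hDh1 j h]
        exact fun _ _ _ _ => Set.mem_univ _
      · by_cases h' : cond j
        · rw [hDh2 j h h']
          exact hD0 j
        · rw [hDh3 j h h']
          exact fun _ _ _ hx => absurd hx (Set.notMem_empty _)
    let D : Set ((Σ j, V j) ⊕ P) := {w | (∃ j, ∃ v ∈ Dh j, w = Sum.inl ⟨j, v⟩) ∨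
      ∃ x, w = Sum.inr x ∧ ∀ z, (∀ a, π a = π z → r a x) → ∀ a, π a = π z → a ∈ E}
    have hDin : ∀ j v, (Sum.inl ⟨j, v⟩ : (Σ j, V j) ⊕ P) ∈ D ↔ v ∈ Dh j := by
      intro j v
      constructor
      · rintro (⟨j', v', hv', h⟩ | ⟨x, h, _⟩)
        · cases h
          exact hv'
        · cases h
      · exact fun h => Or.inl ⟨j, v, h, rfl⟩
    have hDr : ∀ x, (Sum.inr x : (Σ j, V j) ⊕ P) ∈ D ↔
        ∀ z, (∀ a, π a = π z → r a x) → ∀ a, π a = π z → a ∈ E := by
      intro x
      constructor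
      · rintro (⟨j', v', _, h⟩ | ⟨x', h, h'⟩)
        · cases h
        · cases h
          exact h'
      · exact fun h => Or.inr ⟨x, rfl, h⟩
    have hDsec : ∀ j, {w | (Sum.inl ⟨j, w⟩ : (Σ j, V j) ⊕ P) ∈ D} = Dh j := by
      intro j
      ext v
      exact hDin j v
    refine ⟨D, ?_, ?_⟩
    · rintro (⟨j, v⟩ | x) (⟨i, u⟩ | y) hle hx
      · rw [hDin] at hx ⊢
        rcases hle with hle | hle
        · cases hle with
          | mk _ _ _ h => exact hDhL j v u h hx
        · have hfull : full i := by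
            intro a ha
            by_cases h : full j
            · obtain ⟨b, hb⟩ := hπ j
              exact hE b a (hle a b ha hb) (h b hb)
            · by_cases h' : cond j
              · exact h' i hle a ha
              · rw [hDh3 j h h'] at hx
                exact absurd hx (Set.notMem_empty _)
          rw [hDh1 i hfull]
          exact Set.mem_univ _
      · exact absurd hle id
      · rw [hDr] at hx
        rw [hDin]
        have hfull : full i := by
          intro a ha
          obtain ⟨z, hz⟩ := hπ i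
          exact hx z (fun b hb => hle b (hb.trans hz)) a (ha.trans hz.symm)
        rw [hDh1 i hfull]
        exact Set.mem_univ _
      · rw [hDr] at hx ⊢
        exact fun z h => hx z (hle z h)
    · ext x
      constructor
      · rintro ⟨_, hx⟩
        have h2 := hx (π x) ⟨x, rfl, hrefl x⟩
        rw [hDsec] at h2
        by_cases h : full (π x)
        · exact h x rfl
        · by_cases h' : cond (π x)
          · rw [hDh2 _ h h', hD0g] at h2
            exact h2 x rfl (hrefl x)
          · rw [hDh3 _ h h', g4] at h2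
            exact absurd h2 (Set.notMem_empty _)
      · intro hx
        refine ⟨(hDr x).mpr fun z h a ha => hE x a (h a ha) hx, fun j hj => ?_⟩
        obtain ⟨z, hz, hzx⟩ := hj
        rw [hDsec]
        by_cases h : full j
        · rw [hDh1 _ h, g5]
          exact Set.mem_univ _
        · have h' : cond j := fun i hi a ha => hE x a (hr _ _ _ (hi a z ha hz) hzx) hx
          rw [hDh2 _ h h', hD0g]
          exact fun z' _ hz'x => hE x z' hz'x hx
  · intro x
    choose F hFf hF2 using fun j => g3 j x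
    let N : Set P := {z | r z x ∧ ¬ ∀ a, π a = π z → r a x}
    have hfin : (π '' N).Finite := by
      refine finite_pieces (A := Set.univ) (Le r Set.univ π)
        (WQ.mono hg (Set.Subset.refl _) fun _ _ _ _ h => h.imp id Or.inl)
        (Set.subset_univ _) fun y hy z hz _ hle => ?_
      apply hy.2
      intro a ha
      exact hr _ _ _ (hle a (Set.mem_univ _) z (Set.mem_univ _) ha rfl) hz.1
    refine ⟨{Sum.inr x} ∪ ⋃ j ∈ π '' N, (fun v : V j => Sum.inl ⟨j, v⟩) '' F j,
      (Set.finite_singleton _).union (hfin.biUnion fun j _ => (hFf j).image _), ?_⟩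
    have main : ∀ D D', Low (leW r π le) D → Low (leW r π le) D' →
        (∀ w ∈ {Sum.inr x} ∪ ⋃ j ∈ π '' N, (fun v : V j => (Sum.inl ⟨j, v⟩ : (Σ j, V j) ⊕ P)) '' F j,
          w ∈ D ↔ w ∈ D') → (Sum.inr x ∈ D ∧ ∀ j, (∃ z, π z = j ∧ r z x) →
      x ∈ g j {w | Sum.inl ⟨j, w⟩ ∈ D}) → (Sum.inr x ∈ D' ∧ ∀ j, (∃ z, π z = j ∧ r z x) →
      x ∈ g j {w | Sum.inl ⟨j, w⟩ ∈ D'}) := by
      rintro D D' hD hD' hDD ⟨hx1, hx2⟩
      have hx1' : Sum.inr x ∈ D' := (hDD _ (Or.inl rfl)).mp hx1
      refine ⟨hx1', fun j hj => ?_⟩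
      obtain ⟨z, hz, hzx⟩ := hj
      by_cases h : ∀ a, π a = j → r a x
      · have h1 : {w | Sum.inl ⟨j, w⟩ ∈ D'} = (Set.univ : Set (V j)) := by
          ext v
          simp only [Set.mem_univ, iff_true]
          exact hD' (Sum.inr x) (Sum.inl ⟨j, v⟩) h hx1'
        rw [h1, g5]
        exact Set.mem_univ _
      · have hjN : j ∈ π '' N := ⟨z, ⟨hzx, by rw [hz]; exact h⟩, hz⟩
        refine (hF2 j _ _ (hsec D hD j) (hsec D' hD' j) fun v hv => ?_).mp (hx2 j ⟨z, hz, hzx⟩)
        apply hDD
        right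
        simp only [Set.mem_iUnion]
        exact ⟨j, hjN, v, hv, rfl⟩
    intro D D' hD hD' hDD
    exact ⟨main D D' hD hD' hDD, main D' D hD' hD fun w hw => (hDD w hw).symm⟩

end Pool.Agent.Lib.MP_fbb83b_lc
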