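import Mathlib
import Pool.Agent.Lib.MP_fbb83b_lc.RS

set_option autoImplicit false

namespace Pool.Agent.Lib.MP_fbb83b_lc

theorem RS_of_good' {P ι : Type} {r : P → P → Prop} (hrefl : ∀ x, r x x)
    (hr : ∀ x y z, r x y → r y z → r x z) (hF : FAC r Set.univ) {π : P → ι}
    (hg : Good r Set.univ π)
    (hRS : ∀ x0 : P, RS (fun x y => ∀ z, π z = π x0 → r z x → r z y)) : RS r := by
  let σ : P → Set.range π := fun x => ⟨π x, x, rfl⟩
  have hσ : ∀ x y, σ x = σ y ↔ π x = π y := fun x y => Subtype.ext_iff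
  refine RS_of_good hrefl hr hF (π := σ) ?_ ?_ ?_
  · rintro ⟨_, x, rfl⟩
    exact ⟨x, rfl⟩
  · refine WQ.mono hg (Set.Subset.refl _) fun x _ y _ h => ?_
    rcases h with h | h
    · exact Or.inl ((hσ x y).mpr h)
    · exact Or.inr fun a ha b hb h1 h2 => h a ha b hb ((hσ _ _).mp h1) ((hσ _ _).mp h2)
  · rintro ⟨_, x0, rfl⟩
    have h1 : ∀ z, σ z = ⟨π x0, x0, rfl⟩ ↔ π z = π x0 := fun z => Subtype.ext_iff
    have h2 : (fun x y => ∀ z, σ z = ⟨π x0, x0, rfl⟩ → r z x → r z y) =
        fun x y => ∀ z, π z = π x0 → r z x → r z y := by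
      funext x y
      apply propext
      exact forall_congr' fun z => imp_congr (h1 z) Iff.rfl
    have h3 := hRS x0
    rw [← h2] at h3
    exact h3

/-- The main statement at rank `β`. -/
def MainStmt (β : Ordinal.{0}) : Prop :=
  ∀ (P : Type) (r : P → P → Prop), (∀ x, r x x) → (∀ x y z, r x y → r y z → r x z) →
    FAC r Set.univ → TD r β Set.univ → RS r

theorem RS_half {β : Ordinal.{0}} (IH : ∀ γ < β, MainStmt γ) {P X : Type} {r : P → P → Prop}
    (hrefl : ∀ x, r x x) (hr : ∀ x y z, r x y → r y z → r x z) {A : Set P}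
    (hA : Half r (CC r β) A) {t : X → X → Prop} (htrefl : ∀ x, t x x)
    (ht : ∀ x y z, t x y → t y z → t x z) {m : X → P → Prop} (hS : FAC t Set.univ)
    (hemb : ∀ x y, t x y ↔ ∀ p ∈ A, m x p → m y p)
    (hlow : ∀ x, ∀ p ∈ A, ∀ q ∈ A, r q p → m x p → m x q) : RS t := by
  obtain ⟨σ, h1, h2⟩ := half_compl hrefl hr hA htrefl ht (S := Set.univ) hS
    (fun x _ y _ => hemb x y) (fun x _ => hlow x)
  refine RS_of_good' htrefl ht hS h1 fun x0 => ?_
  have htr : ∀ x, (fun x y => ∀ z, σ z = σ x0 → t z x → t z y) x x := fun x z _ h => h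
  have htt : ∀ x y z, (fun x y => ∀ z, σ z = σ x0 → t z x → t z y) x y →
      (fun x y => ∀ z, σ z = σ x0 → t z x → t z y) y z →
      (fun x y => ∀ z, σ z = σ x0 → t z x → t z y) x z :=
    fun x y z h1 h2 w hw h => h2 w hw (h1 w hw h)
  have hfac : FAC (fun x y => ∀ z, σ z = σ x0 → t z x → t z y) Set.univ := by
    refine WQ.mono hS (Set.Subset.refl _) fun x _ y _ h => ?_
    rcases h with h | h
    · exact Or.inl fun z _ hz => ht _ _ _ hz h
    · exact Or.inr fun z _ hz => ht _ _ _ hz h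
  rcases h2 x0 (Set.mem_univ _) with h | ⟨γ, hγ, h⟩
  · refine RS.of_WQ htr htt fun f _ => ?_
    by_cases h3 : ∃ z, σ z = σ x0 ∧ t z (f 1)
    · obtain ⟨z, hz, hz1⟩ := h3
      refine ⟨0, 1, Nat.zero_lt_one, fun w hw _ => ?_⟩
      exact ht _ _ _ (h w ⟨Set.mem_univ _, hw⟩ z ⟨Set.mem_univ _, hz⟩) hz1
    · refine ⟨1, 2, by omega, fun w hw hw1 => absurd ⟨w, hw, hw1⟩ h3⟩
  · refine IH γ hγ X _ htr htt hfac ?_
    refine compl_all γ X t htrefl ht _ h X _ htr htt Set.univ (fun x z => t z x) hfac ?_ ?_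
    · intro x _ y _
      constructor
      · exact fun h3 z hz => h3 z hz.2
      · exact fun h3 z hz => h3 z ⟨Set.mem_univ _, hz⟩
    · exact fun x _ p _ q _ hqp hpx => ht _ _ _ hqp hpx

theorem main_all (β : Ordinal.{0}) : MainStmt β := by
  classical
  induction β using WellFoundedLT.induction with
  | _ β IH =>
    intro P r hrefl hr hF hTD
    rw [TD_iff] at hTD
    obtain ⟨A1, A2, hA, h1, h2⟩ := hTD
    have hg : Good r Set.univ (fun x => decide (x ∈ A1)) := by
      intro f _
      obtain ⟨g, hg, h | h⟩ := subseq_or f (fun x => x ∈ A1)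
      · refine ⟨g 0, g 1, hg Nat.zero_lt_one, Or.inl ?_⟩
        simp only [h 0, h 1]
      · refine ⟨g 0, g 1, hg Nat.zero_lt_one, Or.inl ?_⟩
        simp only [h 0, h 1]
    refine RS_of_good' hrefl hr hF hg fun x0 => ?_
    by_cases hx0 : x0 ∈ A1
    · have e1 : ∀ z, decide (z ∈ A1) = decide (x0 ∈ A1) ↔ z ∈ A1 := by
        intro z
        simp only [hx0, decide_true, decide_eq_true_eq]
      refine RS_half IH hrefl hr h1 (m := fun x z => r z x) (fun x z _ h => h)
        (fun x y z h3 h4 w hw h => h4 w hw (h3 w hw h)) ?_ ?_ ?_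
      · refine WQ.mono hF (Set.Subset.refl _) fun x _ y _ h => ?_
        rcases h with h | h
        · exact Or.inl fun z _ hz => hr _ _ _ hz h
        · exact Or.inr fun z _ hz => hr _ _ _ hz h
      · intro x y
        constructor
        · exact fun h z hz => h z ((e1 z).mpr hz)
        · exact fun h z hz => h z ((e1 z).mp hz)
      · exact fun x p _ q _ hqp hpx => hr _ _ _ hqp hpx
    · have e1 : ∀ z, decide (z ∈ A1) = decide (x0 ∈ A1) ↔ z ∈ A1ᶜ := by
        intro z
        simp only [hx0, decide_false, decide_eq_false_iff_not, Set.mem_compl_iff]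
      have hA2 : A1ᶜ ⊆ A2 := by
        intro z hz
        have h3 : z ∈ A1 ∪ A2 := by
          rw [← hA]
          exact Set.mem_univ _
        exact h3.resolve_left hz
      have h3 : Half (fun x y => r y x) (CC (fun x y => r y x) β) A1ᶜ :=
        (h2.subset CC.subset hA2).imp fun B _ hB => hB.flip
      apply RS.flip (r := fun y x => ∀ z, decide (z ∈ A1) = decide (x0 ∈ A1) → r z x → r z y)
      refine RS_half IH (r := fun x y => r y x) hrefl (fun x y z h3 h4 => hr _ _ _ h4 h3) h3
        (m := fun x z => ¬ r z x) (fun x z _ h => h)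
        (fun x y z h3 h4 w hw h => h3 w hw (h4 w hw h)) ?_ ?_ ?_
      · refine WQ.mono hF (Set.Subset.refl _) fun x _ y _ h => ?_
        rcases h with h | h
        · exact Or.inr fun z _ hz => hr _ _ _ hz h
        · exact Or.inl fun z _ hz => hr _ _ _ hz h
      · intro x y
        constructor
        · exact fun h z hz hzx hzy => hzx (h z ((e1 z).mpr hz) hzy)
        · intro h z hz hzx
          by_contra h4
          exact h z ((e1 z).mp hz) h4 hzx
      · exact fun x p _ q _ hpq hpx hqx => hpx (hr _ _ _ hpq hqx)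

/-- Posets without infinite antichain and without dense suborder are resolved by
well-quasi-orders. -/
theorem main_theorem {P : Type} {r : P → P → Prop} (hrefl : ∀ x, r x x)
    (hr : ∀ x y z, r x y → r y z → r x z) (hF : FAC r Set.univ)
    (hN : ¬ ∃ R : P → P → Prop, (∀ x y, R x y → r x y ∧ ¬ r y x) ∧
      (∀ x y z, R x y → R y z → R x z) ∧ (∀ x y, R x y → ∃ z, R x z ∧ R z y) ∧
      ∃ x y, R x y) : RS r := by
  obtain ⟨β, hβ⟩ := tdx_of_nodense hrefl hr hF hN
  exact main_all β P r hrefl hr hF hβ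

end Pool.Agent.Lib.MP_fbb83b_lc
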