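import Mathlib
import Pool.Agent.Lib.MP_fbb83b_lc.Main

set_option autoImplicit false

namespace Pool.Agent.Lib.MP_fbb83b_lc

/-- The poset algebra, as clopen sets of upper sets. -/
abbrev Cl (P : Type) [Preorder P] : BooleanSubalgebra (Set (UpperSet P)) :=
  BooleanSubalgebra.closure (Set.range fun a : P => {U : UpperSet P | a ∈ U})

/-- Determined by finitely many coordinates. -/
def FinDet {P : Type} [Preorder P] (b : Set (UpperSet P)) : Prop :=
  ∃ F : Set P, F.Finite ∧ ∀ U V : UpperSet P, (∀ p ∈ F, p ∈ U ↔ p ∈ V) → (U ∈ b ↔ V ∈ b)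

theorem finDet_of_mem {P : Type} [Preorder P] {b : Set (UpperSet P)} (hb : b ∈ Cl P) :
    FinDet b := by
  let L : BooleanSubalgebra (Set (UpperSet P)) :=
    { carrier := {b | FinDet b}
      supClosed' := by
        rintro b ⟨F, hF, hb⟩ c ⟨G, hG, hc⟩
        refine ⟨F ∪ G, hF.union hG, fun U V h => ?_⟩
        exact or_congr (hb U V fun p hp => h p (Or.inl hp)) (hc U V fun p hp => h p (Or.inr hp))
      infClosed' := by
        rintro b ⟨F, hF, hb⟩ c ⟨G, hG, hc⟩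
        refine ⟨F ∪ G, hF.union hG, fun U V h => ?_⟩
        exact and_congr (hb U V fun p hp => h p (Or.inl hp)) (hc U V fun p hp => h p (Or.inr hp))
      compl_mem' := by
        rintro b ⟨F, hF, hb⟩
        exact ⟨F, hF, fun U V h => not_congr (hb U V h)⟩
      bot_mem' := ⟨∅, Set.finite_empty, fun _ _ _ => Iff.rfl⟩ }
  have h1 : Cl P ≤ L := by
    rw [BooleanSubalgebra.closure_le]
    rintro _ ⟨a, rfl⟩
    exact ⟨{a}, Set.finite_singleton a, fun U V h => h a rfl⟩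
  exact h1 hb

theorem gen_mem {P : Type} [Preorder P] (a : P) : {U : UpperSet P | a ∈ U} ∈ Cl P :=
  BooleanSubalgebra.subset_closure ⟨a, rfl⟩

theorem mem_of_finDet {P : Type} [Preorder P] {b : Set (UpperSet P)} (hb : FinDet b) :
    b ∈ Cl P := by
  obtain ⟨F, hF, h⟩ := hb
  induction F, hF using Set.Finite.induction_on generalizing b with
  | empty =>
    by_cases hne : b.Nonempty
    · obtain ⟨U, hU⟩ := hne
      have h1 : b = ⊤ := by
        ext V
        constructor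
        · exact fun _ => trivial
        · exact fun _ => (h U V fun p hp => absurd hp (Set.notMem_empty p)).mp hU
      rw [h1]
      exact BooleanSubalgebra.top_mem
    · have h1 : b = ⊥ := Set.not_nonempty_iff_eq_empty.mp hne
      rw [h1]
      exact BooleanSubalgebra.bot_mem
  | @insert w s _ _ ih =>
    let b1 : Set (UpperSet P) := {U | ∃ V ∈ b, w ∈ V ∧ ∀ p ∈ s, p ∈ U ↔ p ∈ V}
    let b2 : Set (UpperSet P) := {U | ∃ V ∈ b, w ∉ V ∧ ∀ p ∈ s, p ∈ U ↔ p ∈ V}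
    have h1 : b1 ∈ Cl P := by
      apply ih
      intro U V hUV
      constructor
      · rintro ⟨T, hT, hw, hT2⟩
        exact ⟨T, hT, hw, fun p hp => (hUV p hp).symm.trans (hT2 p hp)⟩
      · rintro ⟨T, hT, hw, hT2⟩
        exact ⟨T, hT, hw, fun p hp => (hUV p hp).trans (hT2 p hp)⟩
    have h2 : b2 ∈ Cl P := by
      apply ih
      intro U V hUV
      constructor
      · rintro ⟨T, hT, hw, hT2⟩
        exact ⟨T, hT, hw, fun p hp => (hUV p hp).symm.trans (hT2 p hp)⟩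
      · rintro ⟨T, hT, hw, hT2⟩
        exact ⟨T, hT, hw, fun p hp => (hUV p hp).trans (hT2 p hp)⟩
    have h3 : b = (b1 ⊓ {U : UpperSet P | w ∈ U}) ⊔ (b2 ⊓ {U : UpperSet P | w ∈ U}ᶜ) := by
      ext U
      constructor
      · intro hU
        by_cases hw : w ∈ U
        · exact Or.inl ⟨⟨U, hU, hw, fun _ _ => Iff.rfl⟩, hw⟩
        · exact Or.inr ⟨⟨U, hU, hw, fun _ _ => Iff.rfl⟩, hw⟩
      · rintro (⟨⟨V, hV, hw, hV2⟩, hwU⟩ | ⟨⟨V, hV, hw, hV2⟩, hwU⟩)
        · refine (h V U fun p hp => ?_).mp hV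
          rcases hp with rfl | hp
          · exact ⟨fun _ => hwU, fun _ => hw⟩
          · exact (hV2 p hp).symm
        · refine (h V U fun p hp => ?_).mp hV
          rcases hp with rfl | hp
          · exact ⟨fun h => absurd h hw, fun h => absurd h hwU⟩
          · exact (hV2 p hp).symm
    rw [h3]
    exact BooleanSubalgebra.sup_mem (BooleanSubalgebra.inf_mem h1 (gen_mem w))
      (BooleanSubalgebra.inf_mem h2 (BooleanSubalgebra.compl_mem (gen_mem w)))

/-- Superatomicity, in the form of the frozen statement. -/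
def SuperAt (P : Type) [Preorder P] : Prop :=
  ∀ I : Set (Set (UpperSet P)), I ⊆ (Cl P : Set (Set (UpperSet P))) → ∅ ∈ I →
    (∀ x ∈ I, ∀ y ∈ I, x ∪ y ∈ I) → (∀ x ∈ I, ∀ y ∈ Cl P, y ⊆ x → y ∈ I) →
    ∀ b ∈ Cl P, b ∉ I → ∃ a ∈ Cl P, a ⊆ b ∧ a ∉ I ∧ ∀ c ∈ Cl P, c ⊆ a → c ∈ I ∨ a \ c ∈ I

/-- If a family `K` of upper sets has no isolated point, the algebra is not superatomic. -/
theorem not_superAt {P : Type} [Preorder P] (K : Set (UpperSet P)) (hK : K.Nonempty)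
    (h : ∀ U ∈ K, ∀ F : Set P, F.Finite → ∃ V ∈ K, (∀ p ∈ F, p ∈ U ↔ p ∈ V) ∧
      ∃ s : P, s ∈ U ∧ s ∉ V) : ¬ SuperAt P := by
  intro hs
  obtain ⟨a, haC, _, haI, hat⟩ := hs {b | b ∈ Cl P ∧ ∀ U ∈ K, U ∉ b} (fun b hb => hb.1)
    ⟨BooleanSubalgebra.bot_mem, fun U _ hU => hU⟩
    (fun x hx y hy => ⟨BooleanSubalgebra.sup_mem hx.1 hy.1, fun U hU hxy =>
      hxy.elim (hx.2 U hU) (hy.2 U hU)⟩)
    (fun x hx y hy hyx => ⟨hy, fun U hU hUy => hx.2 U hU (hyx hUy)⟩)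
    Set.univ BooleanSubalgebra.top_mem (fun h1 => by
      obtain ⟨U, hU⟩ := hK
      exact h1.2 U hU (Set.mem_univ U))
  have h1 : ∃ U ∈ K, U ∈ a := by
    by_contra h2
    push Not at h2
    exact haI ⟨haC, h2⟩
  obtain ⟨U, hU, hUa⟩ := h1
  obtain ⟨F, hF, hFa⟩ := finDet_of_mem haC
  obtain ⟨V, hV, hUV, s, hs1, hs2⟩ := h U hU F hF
  have hVa : V ∈ a := (hFa U V hUV).mp hUa
  rcases hat (a ∩ {U : UpperSet P | s ∈ U}) (BooleanSubalgebra.inf_mem haC (gen_mem s))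
    Set.inter_subset_left with h2 | h2
  · exact h2.2 U hU ⟨hUa, hs1⟩
  · exact h2.2 V hV ⟨hVa, fun h3 => hs2 h3.2⟩

theorem superAt_fac {P : Type} [Preorder P] (h : SuperAt P) :
    FAC (fun x y : P => x ≤ y) Set.univ := by
  classical
  by_contra hcon
  simp only [FAC, WQ] at hcon
  push Not at hcon
  obtain ⟨f, _, hf⟩ := hcon
  have hne : ∀ m n, m ≠ n → ¬ f m ≤ f n := by
    intro m n hmn
    rcases lt_or_gt_of_ne hmn with h1 | h1
    · exact (hf m n h1).1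
    · exact (hf n m h1).2
  let U : Set ℕ → UpperSet P := fun S =>
    ⟨{p | ∃ n ∈ S, f n ≤ p}, fun p q hpq ⟨n, hn, hnp⟩ => ⟨n, hn, hnp.trans hpq⟩⟩
  have hU : ∀ S p, p ∈ U S ↔ ∃ n ∈ S, f n ≤ p := fun S p => Iff.rfl
  refine not_superAt {V | ∃ S : Set ℕ, S.Infinite ∧ V = U S} ⟨U Set.univ, Set.univ,
    Set.infinite_univ, rfl⟩ ?_ h
  rintro _ ⟨S, hS, rfl⟩ F hF
  let ν : P → ℕ := fun p => if hp : ∃ n ∈ S, f n ≤ p then hp.choose else 0
  have hν : ∀ p, p ∈ U S → ν p ∈ S ∧ f (ν p) ≤ p := by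
    intro p hp
    have h1 : ν p = Exists.choose hp := dif_pos hp
    rw [h1]
    exact hp.choose_spec
  obtain ⟨n, hnS, hnN⟩ := (hS.sdiff (hF.image ν)).nonempty
  refine ⟨U (S \ {n}), ⟨S \ {n}, hS.sdiff (Set.finite_singleton n), rfl⟩, fun p hp => ?_,
    f n, ⟨n, hnS, le_rfl⟩, ?_⟩
  · constructor
    · intro hpU
      obtain ⟨h1, h2⟩ := hν p hpU
      exact ⟨ν p, ⟨h1, fun h3 => hnN ⟨p, hp, h3⟩⟩, h2⟩
    · rintro ⟨k, hk, hkp⟩
      exact ⟨k, hk.1, hkp⟩
  · rintro ⟨k, hk, hkn⟩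
    exact hne k n hk.2 hkn

theorem superAt_nodense {P : Type} [Preorder P] (h : SuperAt P) :
    ¬ ∃ R : P → P → Prop, (∀ x y, R x y → x ≤ y ∧ ¬ y ≤ x) ∧
      (∀ x y z, R x y → R y z → R x z) ∧ (∀ x y, R x y → ∃ z, R x z ∧ R z y) ∧
      ∃ x y, R x y := by
  rintro ⟨R, h1, h2, h3, x0, y0, hxy⟩
  have hirr : ∀ x, ¬ R x x := fun x hx => (h1 x x hx).2 le_rfl
  have hch : IsChain R ({x0, y0} : Set P) := by
    rintro a (rfl | rfl) b (rfl | rfl) hab
    · exact absurd rfl hab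
    · exact Or.inl hxy
    · exact Or.inr hxy
    · exact absurd rfl hab
  obtain ⟨C, hC, hCs⟩ := hch.exists_maxChain
  have hx0 : x0 ∈ C := hCs (Or.inl rfl)
  have hy0 : y0 ∈ C := hCs (Or.inr rfl)
  have hcmp : ∀ a ∈ C, ∀ b ∈ C, a ≠ b → R a b ∨ R b a := fun a ha b hb hab => hC.1 ha hb hab
  have hdense : ∀ u ∈ C, ∀ v ∈ C, R u v → ∃ z ∈ C, R u z ∧ R z v := by
    intro u hu v hv huv
    by_contra hno
    push Not at hno
    obtain ⟨z, huz, hzv⟩ := h3 u v huv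
    have hz : ∀ w ∈ C, R w z ∨ R z w := by
      intro w hw
      by_cases hwu : w = u
      · left
        rw [hwu]
        exact huz
      · by_cases hwv : w = v
        · right
          rw [hwv]
          exact hzv
        · rcases hcmp w hw u hu hwu with h4 | h4
          · exact Or.inl (h2 _ _ _ h4 huz)
          · rcases hcmp w hw v hv hwv with h5 | h5
            · exact absurd h5 (hno w hw h4)
            · exact Or.inr (h2 _ _ _ hzv h5)
    have hch2 : IsChain R (insert z C) := by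
      intro a ha b hb hab
      rcases ha with rfl | ha
      · rcases hb with rfl | hb
        · exact absurd rfl hab
        · exact (hz b hb).symm
      · rcases hb with rfl | hb
        · exact hz a ha
        · exact hcmp a ha b hb hab
    have h4 : C = insert z C := hC.2 hch2 (Set.subset_insert z C)
    have h5 : z ∈ C := by
      rw [h4]
      exact Set.mem_insert z C
    exact hno z h5 huz hzv
  let U : P → UpperSet P := fun c =>
    ⟨{p | ∃ d ∈ C, R c d ∧ d ≤ p}, fun p q hpq ⟨d, hd, hcd, hdp⟩ => ⟨d, hd, hcd, hdp.trans hpq⟩⟩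
  refine not_superAt {V | ∃ c ∈ C, (∃ d ∈ C, R c d) ∧ V = U c}
    ⟨U x0, x0, hx0, ⟨y0, hy0, hxy⟩, rfl⟩ ?_ h
  rintro _ ⟨c, hc, ⟨d0, hd0, hcd0⟩, rfl⟩ F hF
  have key : ∃ e ∈ C, R c e ∧ ∀ p ∈ F, p ∈ U c → ∃ d ∈ C, (e = d ∨ R e d) ∧ d ≤ p := by
    induction F, hF using Set.Finite.induction_on with
    | empty => exact ⟨d0, hd0, hcd0, fun p hp => absurd hp (Set.notMem_empty p)⟩
    | @insert q s _ _ ih =>
      obtain ⟨e, he, hce, hep⟩ := ih
      by_cases hq : q ∈ U c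
      · obtain ⟨d, hd, hcd, hdq⟩ := hq
        by_cases hed : e = d ∨ R e d
        · refine ⟨e, he, hce, fun p hp hpU => ?_⟩
          rcases hp with rfl | hp
          · exact ⟨d, hd, hed, hdq⟩
          · exact hep p hp hpU
        · have hde : R d e := by
            have h4 : ¬ e = d := fun h => hed (Or.inl h)
            rcases hcmp e he d hd h4 with h5 | h5
            · exact absurd (Or.inr h5) hed
            · exact h5
          refine ⟨d, hd, hcd, fun p hp hpU => ?_⟩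
          rcases hp with rfl | hp
          · exact ⟨d, hd, Or.inl rfl, hdq⟩
          · obtain ⟨d', hd', hed', hd'p⟩ := hep p hp hpU
            refine ⟨d', hd', Or.inr ?_, hd'p⟩
            rcases hed' with rfl | hed'
            · exact hde
            · exact h2 _ _ _ hde hed'
      · refine ⟨e, he, hce, fun p hp hpU => ?_⟩
        rcases hp with rfl | hp
        · exact absurd hpU hq
        · exact hep p hp hpU
  obtain ⟨e, he, hce, hep⟩ := key
  obtain ⟨s, hs, hcs, hse⟩ := hdense c hc e he hce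
  obtain ⟨c', hc', hsc', hc'e⟩ := hdense s hs e he hse
  refine ⟨U c', ⟨c', hc', ⟨e, he, hc'e⟩, rfl⟩, fun p hp => ?_, s, ⟨s, hs, hcs, le_rfl⟩, ?_⟩
  · constructor
    · intro hpU
      obtain ⟨d, hd, hed, hdp⟩ := hep p hp hpU
      refine ⟨d, hd, ?_, hdp⟩
      rcases hed with rfl | hed
      · exact hc'e
      · exact h2 _ _ _ hc'e hed
    · rintro ⟨d, hd, hc'd, hdp⟩
      exact ⟨d, hd, h2 _ _ _ hcs (h2 _ _ _ hsc' hc'd), hdp⟩
  · rintro ⟨d, _, hc'd, hds⟩
    exact (h1 s d (h2 _ _ _ hsc' hc'd)).2 hds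

/-- Resolutions give embeddings of poset algebras. -/
theorem final_step {P : Type} [Preorder P] (h : RS (fun x y : P => x ≤ y)) :
    ∃ (W : Type) (_ : Preorder W), WellQuasiOrdered (fun x y : W => x ≤ y) ∧
      ∃ f : Set (UpperSet P) → Set (UpperSet W),
        (∀ x ∈ Cl P, f x ∈ Cl W) ∧ (∀ x ∈ Cl P, ∀ y ∈ Cl P, f (x ∩ y) = f x ∩ f y) ∧
        (∀ x ∈ Cl P, f xᶜ = (f x)ᶜ) ∧ (∀ x ∈ Cl P, ∀ y ∈ Cl P, f x = f y → x = y) := by
  obtain ⟨W, le, h1, h2, h3, g, h4, h5, h6⟩ := h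
  let iW : Preorder W := { le := le, le_refl := h1, le_trans := h2 }
  have hlow : ∀ U : UpperSet W, Low le ((U : Set W)ᶜ) :=
    fun U x y hyx hx hy => hx (U.upper hyx hy)
  let Φ : UpperSet W → UpperSet P := fun U =>
    ⟨(g ((U : Set W)ᶜ))ᶜ, fun p q hpq hp hq => hp (h4 _ (hlow U) q p hpq hq)⟩
  have hΦ : ∀ U p, p ∈ Φ U ↔ p ∉ g ((U : Set W)ᶜ) := fun U p => Iff.rfl
  refine ⟨W, iW, ?_, fun b => {U | Φ U ∈ b}, ?_, fun _ _ _ _ => rfl, fun _ _ => rfl, ?_⟩
  · intro f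
    exact h3 f fun _ => Set.mem_univ _
  · intro b hb
    apply mem_of_finDet
    obtain ⟨F, hF, hFb⟩ := finDet_of_mem hb
    choose G hG hG2 using h6
    refine ⟨⋃ p ∈ F, G p, hF.biUnion fun p _ => hG p, fun U V hUV => ?_⟩
    apply hFb (Φ U) (Φ V)
    intro p hp
    rw [hΦ, hΦ]
    apply not_congr
    apply hG2 p _ _ (hlow U) (hlow V)
    intro w hw
    apply not_congr
    apply hUV
    simp only [Set.mem_iUnion]
    exact ⟨p, hp, hw⟩
  · intro x _ y _ hxy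
    have hsurj : ∀ V : UpperSet P, ∃ U, Φ U = V := by
      intro V
      obtain ⟨D, hD, hDV⟩ := h5 ((V : Set P)ᶜ) fun p q hqp hp hq => hp (V.upper hqp hq)
      refine ⟨⟨Dᶜ, fun a b hab ha hb => ha (hD b a hab hb)⟩, ?_⟩
      apply UpperSet.ext
      ext p
      change p ∉ g (Dᶜᶜ) ↔ p ∈ V
      rw [compl_compl, hDV]
      exact not_not
    ext V
    obtain ⟨U, hU⟩ := hsurj V
    have hxy' : {U | Φ U ∈ x} = {U | Φ U ∈ y} := hxy
    have h7 : U ∈ {U | Φ U ∈ x} ↔ U ∈ {U | Φ U ∈ y} := by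
      rw [hxy']
    rw [← hU]
    exact h7

theorem final {P : Type} [PartialOrder P] (h : SuperAt P) :
    ∃ (W : Type) (_ : Preorder W), WellQuasiOrdered (fun x y : W => x ≤ y) ∧
      ∃ f : Set (UpperSet P) → Set (UpperSet W),
        (∀ x ∈ Cl P, f x ∈ Cl W) ∧ (∀ x ∈ Cl P, ∀ y ∈ Cl P, f (x ∩ y) = f x ∩ f y) ∧
        (∀ x ∈ Cl P, f xᶜ = (f x)ᶜ) ∧ (∀ x ∈ Cl P, ∀ y ∈ Cl P, f x = f y → x = y) :=
  final_step (main_theorem (fun x => le_refl x) (fun _ _ _ => le_trans) (superAt_fac h)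
    (superAt_nodense h))

end Pool.Agent.Lib.MP_fbb83b_lc
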